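import Pool.Agent.MS.Main

/-!
# The final form of the statement: exponent `3 / 2` for all the sizes, `3 / 4` at all scales
-/

set_option autoImplicit false
open scoped Classical

noncomputable section

namespace MS

open Finset

/-- the two-sided theorem in its usual form -/
def TwoSided (p q : ℝ) : Prop := ∃ c : ℝ, 0 < c ∧ ∀ f : ℕ → Fin 3 → ℂ,
      (∀ i a, f i a = (-1 : ℂ) ^ i * Complex.exp (2 * (Real.pi : ℂ) * Complex.I * ((a : ℕ) : ℂ) / 3)) →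
      ∀ n : ℕ, 1 ≤ n → ∀ W : Finset (Fin n → Fin 3),
        W = Finset.univ.filter (fun s : Fin n → Fin 3 => ∀ j₁ j₂ : Fin (n + 1),
          (∑ i ∈ Finset.univ.filter (fun i : Fin n => (i : ℕ) < (j₁ : ℕ)), f (i : ℕ) (s i)) =
          (∑ i ∈ Finset.univ.filter (fun i : Fin n => (i : ℕ) < (j₂ : ℕ)), f (i : ℕ) (s i)) →
          j₁ = j₂) →
        (c * (n : ℝ) ^ p ≤ (∑ s ∈ W, ‖∑ i : Fin n, f (i : ℕ) (s i)‖ ^ 2) / (W.card : ℝ) ∧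
          (∑ s ∈ W, ‖∑ i : Fin n, f (i : ℕ) (s i)‖ ^ 2) / (W.card : ℝ) ≤ c⁻¹ * (n : ℝ) ^ q) ∧
        ((W.filter (fun s => ∀ j : Fin (n + 1),
          ‖∑ i ∈ Finset.univ.filter (fun i : Fin n => (i : ℕ) < (j : ℕ)), f (i : ℕ) (s i)‖ ≤
            c * (n : ℝ) ^ (p / 2))).card : ℝ) ≤ c⁻¹ * Real.exp (-(n : ℝ) ^ c) * (W.card : ℝ) ∧
        ((W.filter (fun s => ∃ j : Fin (n + 1), c⁻¹ * (n : ℝ) ^ (q / 2) <
          ‖∑ i ∈ Finset.univ.filter (fun i : Fin n => (i : ℕ) < (j : ℕ)), f (i : ℕ) (s i)‖)).card : ℝ) ≤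
            c⁻¹ * Real.exp (-(n : ℝ) ^ c) * (W.card : ℝ)

/-- regular at all scales, exponents `a`, `b` -/
def Reg (f : ℕ → Fin 3 → ℂ) (a b c δ : ℝ) {n : ℕ} (s : Fin n → Fin 3) : Prop :=
  ∀ i j : ℕ, i < j → j ≤ n → (n : ℝ) ^ δ ≤ (j : ℝ) - i →
    (∃ k : ℕ, i ≤ k ∧ k ≤ j ∧ c * ((j : ℝ) - i) ^ a ≤ ‖pw f s k - pw f s i‖) ∧
    ∀ k : ℕ, i ≤ k → k ≤ j → ‖pw f s k - pw f s i‖ ≤ c⁻¹ * ((j : ℝ) - i) ^ b

theorem Good.reg {f : ℕ → Fin 3 → ℂ} {a b c δ : ℝ} {n : ℕ} {s : Fin n → Fin 3}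
    (h : Good f a b c δ s) : Reg f a b c δ s := by
  intro i j hij hj hn
  have e : ((j - i : ℕ) : ℝ) = (j : ℝ) - i := by rw [Nat.cast_sub hij.le]
  obtain ⟨⟨k, hk, h1⟩, h2⟩ := h i (j - i) (by omega) (by omega) (by rw [e]; exact hn)
  rw [e] at h1 h2
  refine ⟨⟨i + k, by omega, by omega, h1.le⟩, fun k hk1 hk2 => ?_⟩
  have h3 := h2 (k - i) (by omega)
  rwa [Nat.add_sub_cancel' hk1] at h3

theorem Reg.mono_exp {f : ℕ → Fin 3 → ℂ} {a a' b b' c δ δ' : ℝ} (hc : 0 < c) {n : ℕ}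
    {s : Fin n → Fin 3} (h : Reg f a b c δ s) (ha : a' ≤ a) (hb : b ≤ b') (hδ : δ ≤ δ') :
    Reg f a' b' c δ' s := by
  intro i j hij hj hn
  have hn1 : (1 : ℝ) ≤ n := by
    have : 1 ≤ n := by omega
    exact_mod_cast this
  have hd1 : (1 : ℝ) ≤ (j : ℝ) - i := by
    have : (i : ℝ) + 1 ≤ j := by exact_mod_cast hij
    linarith
  obtain ⟨⟨k, hk1, hk2, h1⟩, h2⟩ := h i j hij hj
    ((Real.rpow_le_rpow_of_exponent_le hn1 hδ).trans hn)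
  refine ⟨⟨k, hk1, hk2, le_trans ?_ h1⟩, fun k hk1 hk2 => (h2 k hk1 hk2).trans ?_⟩
  · exact mul_le_mul_of_nonneg_left (Real.rpow_le_rpow_of_exponent_le hd1 ha) hc.le
  · exact mul_le_mul_of_nonneg_left (Real.rpow_le_rpow_of_exponent_le hd1 hb) (by positivity)

theorem Bd.mono_exp {c p p' q q' E : ℝ} {n : ℕ} (hc : 0 < c) (hn : 1 ≤ n) (h : Bd c n p q E)
    (hp : p' ≤ p) (hq : q ≤ q') : Bd c n p' q' E := by
  have hn1 : (1 : ℝ) ≤ n := by exact_mod_cast hn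
  refine ⟨le_trans ?_ h.1, h.2.trans ?_⟩
  · exact mul_le_mul_of_nonneg_left (Real.rpow_le_rpow_of_exponent_le hn1 hp) hc.le
  · exact mul_le_mul_of_nonneg_left (Real.rpow_le_rpow_of_exponent_le hn1 hq) (by positivity)

/-- **general form** -/
theorem main_reg {p q δ : ℝ} (hp : 0 < p) (hpq : p ≤ q) (hq : q ≤ 2) (hδ : 0 < δ)
    (h : TwoSided p q) : ∃ c : ℝ, 0 < c ∧ c ≤ 1 ∧ ∀ f : ℕ → Fin 3 → ℂ, Hex f →
      ∀ n : ℕ, 1 ≤ n →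
      Bd c n p q (Ev f n (fun s => ‖pw f s n‖ ^ 2)) ∧ Bd c n p q (Ev f n (Mx f)) ∧
      Bd c n (p + p / q - 1) q (Ev f n (Rg f)) ∧ Bd c n (p + p / q - 1) q (Ev f n (Rm f)) ∧
      (((SW f n).filter (fun s => ¬ Reg f (p / 2) (q / 2) c δ s)).card : ℝ) ≤
        c⁻¹ * Real.exp (-(n : ℝ) ^ c) * ((SW f n).card : ℝ) := by
  obtain ⟨hE, hL, hU⟩ := inputs h
  obtain ⟨c, hc, hc1, h1⟩ := main hp hpq hq hδ hE hL hU
  refine ⟨c, hc, hc1, fun f hf n hn => ?_⟩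
  obtain ⟨a1, a2, a3, a4, a5⟩ := h1 f hf n hn
  refine ⟨a1, a2, a3, a4, le_trans ?_ a5⟩
  have h2 : (SW f n).filter (fun s => ¬ Reg f (p / 2) (q / 2) c δ s) ⊆
      (SW f n).filter (fun s => ¬ Good f (p / 2) (q / 2) c δ s) := by
    intro s hs
    rw [mem_filter] at hs ⊢
    exact ⟨hs.1, fun hg => hs.2 hg.reg⟩
  exact_mod_cast card_le_card h2

/-- **the final form** -/
theorem final (h : ∀ p q : ℝ, p < 3 / 2 → 3 / 2 < q → TwoSided p q) (ε : ℝ) (hε : 0 < ε) :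
    ∃ c : ℝ, 0 < c ∧ ∀ f : ℕ → Fin 3 → ℂ, Hex f → ∀ n : ℕ, 1 ≤ n →
      Bd c n (3 / 2 - ε) (3 / 2 + ε) (Ev f n (fun s => ‖pw f s n‖ ^ 2)) ∧
      Bd c n (3 / 2 - ε) (3 / 2 + ε) (Ev f n (Mx f)) ∧
      Bd c n (3 / 2 - ε) (3 / 2 + ε) (Ev f n (Rg f)) ∧
      Bd c n (3 / 2 - ε) (3 / 2 + ε) (Ev f n (Rm f)) ∧
      (((SW f n).filter (fun s => ¬ Reg f (3 / 4 - ε) (3 / 4 + ε) c ε s)).card : ℝ) ≤
        c⁻¹ * Real.exp (-(n : ℝ) ^ c) * ((SW f n).card : ℝ) := by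
  set η := min (ε / 5) (1 / 8) with hη
  have hη0 : 0 < η := lt_min (by positivity) (by norm_num)
  have hη1 : η ≤ ε / 5 := min_le_left _ _
  have hη2 : η ≤ 1 / 8 := min_le_right _ _
  obtain ⟨c, hc, hc1, h1⟩ := main_reg (p := 3 / 2 - 2 * η) (q := 3 / 2 + 2 * η) (δ := ε)
    (by linarith) (by linarith) (by linarith) hε (h _ _ (by linarith) (by linarith))
  have hq0 : (0 : ℝ) < 3 / 2 + 2 * η := by linarith
  have hpq : 1 - 8 / 3 * η ≤ (3 / 2 - 2 * η) / (3 / 2 + 2 * η) := by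
    rw [le_div_iff₀ hq0]
    nlinarith
  refine ⟨c, hc, fun f hf n hn => ?_⟩
  obtain ⟨a1, a2, a3, a4, a5⟩ := h1 f hf n hn
  refine ⟨a1.mono_exp hc hn (by linarith) (by linarith), a2.mono_exp hc hn (by linarith) (by linarith),
    a3.mono_exp hc hn (by linarith) (by linarith), a4.mono_exp hc hn (by linarith) (by linarith),
    le_trans ?_ a5⟩
  have h2 : (SW f n).filter (fun s => ¬ Reg f (3 / 4 - ε) (3 / 4 + ε) c ε s) ⊆
      (SW f n).filter (fun s => ¬ Reg f ((3 / 2 - 2 * η) / 2) ((3 / 2 + 2 * η) / 2) c ε s) := by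
    intro s hs
    rw [mem_filter] at hs ⊢
    exact ⟨hs.1, fun hg => hs.2 (hg.mono_exp hc (by linarith) (by linarith) le_rfl)⟩
  exact_mod_cast card_le_card h2

end MS
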