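import Pool.Agent.MS.Scales
import Pool.Agent.CMP.DictC
import Pool.Agent.PHW8.Final8b
import Pool.Agent.SDN.EncBall

/-!
# The number of self-avoiding walks on the hexagonal lattice, in the encoding by words
-/

set_option autoImplicit false
open scoped Classical

noncomputable section

namespace MS

open Finset HexObs

/-- the encoding of the hexagonal lattice -/
def Hex (f : ℕ → Fin 3 → ℂ) : Prop :=
  ∀ i a, f i a = (-1 : ℂ) ^ i * Complex.exp (2 * (Real.pi : ℂ) * Complex.I * ((a : ℕ) : ℂ) / 3)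

theorem Hex.alt {f : ℕ → Fin 3 → ℂ} (hf : Hex f) : Alt f := fun i a => by
  rw [hf i a, hf 0 a, pow_zero, one_mul]

theorem Hex.norm_step {f : ℕ → Fin 3 → ℂ} (hf : Hex f) (i : ℕ) (a : Fin 3) : ‖f i a‖ = 1 := by
  rw [hf i a, norm_mul, norm_pow, norm_neg, norm_one, one_pow, one_mul]
  have : 2 * (Real.pi : ℂ) * Complex.I * ((a : ℕ) : ℂ) / 3 =
      ((2 * Real.pi * ((a : ℕ) : ℝ) / 3 : ℝ) : ℂ) * Complex.I := by
    push_cast
    ring
  rw [this]
  exact Complex.norm_exp_ofReal_mul_I _

theorem card_SW {f : ℕ → Fin 3 → ℂ} (hf : Hex f) {n : ℕ} (hn : 1 ≤ n) :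
    (SW f n).card = aB n := by
  obtain ⟨K, _, hK⟩ := CMP.dict
  have h1 := (hK f hf n hn (SW f n) rfl).1
  have h2 := aB_eq hn
  have h3 : (2 : ℝ) * aB n = 3 * cS n := by exact_mod_cast h2
  have h4 : ((SW f n).card : ℝ) = aB n := by linarith
  exact_mod_cast h4

theorem card_SW_zero (f : ℕ → Fin 3 → ℂ) : (SW f 0).card = 1 := by
  have h : SW f 0 = univ := by
    unfold SW
    refine filter_true_of_mem fun s _ j₁ j₂ _ => ?_
    exact Fin.ext (by omega)
  rw [h, card_univ]
  simp

/-- **the count for the hexagonal lattice** -/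
theorem exists_Cnt : ∃ C : ℝ, ∀ f : ℕ → Fin 3 → ℂ, Hex f → Cnt f (1 / xc) C := by
  obtain ⟨C, hC, h⟩ := PHW_all
  have hx := xc_pos
  have hmu : muB = 1 / xc := le_antisymm muB_le le_muB
  refine ⟨C, fun f hf => ⟨by positivity, hC, fun n => ?_, fun n => ?_⟩⟩
  · rcases Nat.eq_zero_or_pos n with rfl | hn
    · rw [card_SW_zero]
      simp
    · have h1 := SDN.card_ge n
      rw [card_SW hf hn, PHWDict.aB_WS, div_pow, one_pow, div_le_iff₀ (pow_pos hx n)]
      exact h1
  · rcases Nat.eq_zero_or_pos n with rfl | hn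
    · rw [card_SW_zero]
      simp
      linarith
    · rw [card_SW hf hn]
      have h1 := h n hn
      rw [hmu] at h1
      refine h1.trans ?_
      have hnR : (0 : ℝ) < n := by exact_mod_cast hn
      have h2 : (n : ℝ) ^ C ≤ ((n : ℝ) + 1) ^ C :=
        Real.rpow_le_rpow hnR.le (by linarith) (by linarith)
      exact mul_le_mul_of_nonneg_right (mul_le_mul_of_nonneg_left h2 (by linarith)) (by positivity)

end MS
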