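import Pool.Agent.MS.Gyr
import Pool.Agent.MS.Count

/-!
# All scales

`LowT p`, `UpT q`: the tail bounds of the maximal displacement of the walk with `n` steps.
`all_scales`: with stretched exponentially large probability all the pieces of the walk with at
least `n ^ δ` steps satisfy both bounds.
-/

set_option autoImplicit false
open scoped Classical

noncomputable section

namespace MS

open Finset

/-- the walk stays in a small ball only with a small probability -/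
def LowT (p : ℝ) : Prop := ∃ c : ℝ, 0 < c ∧ ∀ f : ℕ → Fin 3 → ℂ, Hex f → ∀ n : ℕ, 1 ≤ n →
  (((SW f n).filter (fun s => ∀ j : Fin (n + 1), ‖pw f s j‖ ≤ c * (n : ℝ) ^ (p / 2))).card : ℝ) ≤
    c⁻¹ * Real.exp (-(n : ℝ) ^ c) * ((SW f n).card : ℝ)

/-- the walk leaves a large ball only with a small probability -/
def UpT (q : ℝ) : Prop := ∃ c : ℝ, 0 < c ∧ ∀ f : ℕ → Fin 3 → ℂ, Hex f → ∀ n : ℕ, 1 ≤ n →
  (((SW f n).filter (fun s => ∃ j : Fin (n + 1), c⁻¹ * (n : ℝ) ^ (q / 2) < ‖pw f s j‖)).card : ℝ) ≤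
    c⁻¹ * Real.exp (-(n : ℝ) ^ c) * ((SW f n).card : ℝ)

/-- the walks that violate one of the bounds -/
def badW (f : ℕ → Fin 3 → ℂ) (a b c : ℝ) (m : ℕ) : Finset (Fin m → Fin 3) :=
  (SW f m).filter (fun s => (∀ j : ℕ, j ≤ m → ‖pw f s j‖ ≤ c * (m : ℝ) ^ a) ∨
    ∃ j : ℕ, j ≤ m ∧ c⁻¹ * (m : ℝ) ^ b < ‖pw f s j‖)

theorem card_badW {p q : ℝ} (hL : LowT p) (hU : UpT q) : ∃ c₀ : ℝ, 0 < c₀ ∧ c₀ ≤ 1 ∧
    ∃ c₁ : ℝ, 0 < c₁ ∧ ∀ f : ℕ → Fin 3 → ℂ, Hex f → ∀ m : ℕ, 1 ≤ m →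
      ((badW f (p / 2) (q / 2) c₀ m).card : ℝ) ≤
        c₁⁻¹ * Real.exp (-(m : ℝ) ^ c₁) * ((SW f m).card : ℝ) := by
  obtain ⟨a, ha, hL⟩ := hL
  obtain ⟨b, hb, hU⟩ := hU
  refine ⟨min 1 (min a b), lt_min one_pos (lt_min ha hb), min_le_left _ _, min a b / 2,
    by positivity, fun f hf m hm => ?_⟩
  set c₀ := min 1 (min a b) with hc₀
  have hc0 : 0 < c₀ := lt_min one_pos (lt_min ha hb)
  have hca : c₀ ≤ a := (min_le_right _ _).trans (min_le_left _ _)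
  have hcb : c₀ ≤ b := (min_le_right _ _).trans (min_le_right _ _)
  have hmR : (1 : ℝ) ≤ m := by exact_mod_cast hm
  have h1 := hL f hf m hm
  have h2 := hU f hf m hm
  have hS : (0 : ℝ) ≤ ((SW f m).card : ℝ) := Nat.cast_nonneg _
  have h3 : badW f (p / 2) (q / 2) c₀ m ⊆
      ((SW f m).filter (fun s => ∀ j : Fin (m + 1), ‖pw f s j‖ ≤ a * (m : ℝ) ^ (p / 2))) ∪
      ((SW f m).filter (fun s => ∃ j : Fin (m + 1), b⁻¹ * (m : ℝ) ^ (q / 2) < ‖pw f s j‖)) := by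
    intro s hs
    unfold badW at hs
    rw [mem_filter] at hs
    obtain ⟨hs, h | ⟨j, hj, h⟩⟩ := hs
    · refine mem_union_left _ (mem_filter.2 ⟨hs, fun j => (h j (by omega)).trans ?_⟩)
      exact mul_le_mul_of_nonneg_right hca (by positivity)
    · refine mem_union_right _ (mem_filter.2 ⟨hs, ⟨j, by omega⟩, lt_of_le_of_lt ?_ h⟩)
      exact mul_le_mul_of_nonneg_right (inv_anti₀ hc0 hcb) (by positivity)
  have h4 : ((badW f (p / 2) (q / 2) c₀ m).card : ℝ) ≤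
      a⁻¹ * Real.exp (-(m : ℝ) ^ a) * ((SW f m).card : ℝ) +
      b⁻¹ * Real.exp (-(m : ℝ) ^ b) * ((SW f m).card : ℝ) := by
    have := (card_le_card h3).trans (card_union_le _ _)
    have h5 : ((badW f (p / 2) (q / 2) c₀ m).card : ℝ) ≤
        (((SW f m).filter (fun s => ∀ j : Fin (m + 1),
          ‖pw f s j‖ ≤ a * (m : ℝ) ^ (p / 2))).card : ℝ) +
        (((SW f m).filter (fun s => ∃ j : Fin (m + 1),
          b⁻¹ * (m : ℝ) ^ (q / 2) < ‖pw f s j‖)).card : ℝ) := by exact_mod_cast this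
    linarith
  have hmin : 0 < min a b := lt_min ha hb
  have e1 : Real.exp (-(m : ℝ) ^ a) ≤ Real.exp (-(m : ℝ) ^ (min a b / 2)) := by
    rw [Real.exp_le_exp, neg_le_neg_iff]
    exact Real.rpow_le_rpow_of_exponent_le hmR (by linarith [min_le_left a b])
  have e2 : Real.exp (-(m : ℝ) ^ b) ≤ Real.exp (-(m : ℝ) ^ (min a b / 2)) := by
    rw [Real.exp_le_exp, neg_le_neg_iff]
    exact Real.rpow_le_rpow_of_exponent_le hmR (by linarith [min_le_right a b])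
  have i1 : a⁻¹ ≤ (min a b)⁻¹ := inv_anti₀ hmin (min_le_left _ _)
  have i2 : b⁻¹ ≤ (min a b)⁻¹ := inv_anti₀ hmin (min_le_right _ _)
  calc _ ≤ a⁻¹ * Real.exp (-(m : ℝ) ^ a) * ((SW f m).card : ℝ) +
      b⁻¹ * Real.exp (-(m : ℝ) ^ b) * ((SW f m).card : ℝ) := h4
    _ ≤ (min a b)⁻¹ * Real.exp (-(m : ℝ) ^ (min a b / 2)) * ((SW f m).card : ℝ) +
      (min a b)⁻¹ * Real.exp (-(m : ℝ) ^ (min a b / 2)) * ((SW f m).card : ℝ) := by gcongr
    _ = _ := by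
      rw [inv_div]
      field_simp
      ring

theorem Good.mono {f : ℕ → Fin 3 → ℂ} {a b c c' δ : ℝ} {n : ℕ} {s : Fin n → Fin 3}
    (h : Good f a b c δ s) (hc' : 0 < c') (hcc : c' ≤ c) : Good f a b c' δ s := by
  intro i m h1 h2 h3
  obtain ⟨⟨j, hj, hj2⟩, h4⟩ := h i m h1 h2 h3
  refine ⟨⟨j, hj, lt_of_le_of_lt ?_ hj2⟩, fun j hj => (h4 j hj).trans ?_⟩
  · exact mul_le_mul_of_nonneg_right hcc (by positivity)
  · exact mul_le_mul_of_nonneg_right (inv_anti₀ hc' hcc) (by positivity)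

/-- **all scales** -/
theorem all_scales {p q δ : ℝ} (hδ : 0 < δ) (hL : LowT p) (hU : UpT q) :
    ∃ c : ℝ, 0 < c ∧ c ≤ 1 ∧ ∀ f : ℕ → Fin 3 → ℂ, Hex f → ∀ n : ℕ, 1 ≤ n →
      (((SW f n).filter (fun s => ¬ Good f (p / 2) (q / 2) c δ s)).card : ℝ) ≤
        c⁻¹ * Real.exp (-(n : ℝ) ^ c) * ((SW f n).card : ℝ) := by
  obtain ⟨c₀, hc₀, hc₀1, c₁, hc₁, hbad⟩ := card_badW hL hU
  obtain ⟨C, hC⟩ := exists_Cnt
  obtain ⟨c', hc', hrare⟩ := rare_sub (1 / HexObs.xc) C c₁ δ hc₁ hδ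
  refine ⟨min c₀ c', lt_min hc₀ hc', (min_le_left _ _).trans hc₀1, fun f hf n hn => ?_⟩
  have hnR : (1 : ℝ) ≤ n := by exact_mod_cast hn
  have h1 := hrare f hf.alt (hC f hf) (badW f (p / 2) (q / 2) c₀) (hbad f hf) n hn
  have hm : 0 < min c₀ c' := lt_min hc₀ hc'
  have h2 : (SW f n).filter (fun s => ¬ Good f (p / 2) (q / 2) (min c₀ c') δ s) ⊆
      (SW f n).filter (fun s => ∃ i m : ℕ, ∃ h : i + m ≤ n, (n : ℝ) ^ δ ≤ m ∧
          sub s i m h ∈ badW f (p / 2) (q / 2) c₀ m) := by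
    intro s hs
    rw [mem_filter] at hs ⊢
    refine ⟨hs.1, ?_⟩
    by_contra hcon
    push Not at hcon
    refine hs.2 (Good.mono (c := c₀) ?_ hm (min_le_left _ _))
    intro i m h3 h4 h5
    have h6 := hcon i m h3 h5
    unfold badW at h6
    rw [mem_filter] at h6
    have h7 := sub_mem hf.alt hs.1 i m h3
    have h8 : ¬ ((∀ j : ℕ, j ≤ m → ‖pw f (sub s i m h3) j‖ ≤ c₀ * (m : ℝ) ^ (p / 2)) ∨
        ∃ j : ℕ, j ≤ m ∧ c₀⁻¹ * (m : ℝ) ^ (q / 2) < ‖pw f (sub s i m h3) j‖) := fun h => h6 ⟨h7, h⟩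
    push Not at h8
    obtain ⟨⟨j, hj, h9⟩, h10⟩ := h8
    refine ⟨⟨j, hj, ?_⟩, fun j hj => ?_⟩
    · rw [norm_pw_sub hf.alt s i m h3 j hj]
      exact h9
    · rw [norm_pw_sub hf.alt s i m h3 j hj]
      exact h10 j hj
  have h3 : (((SW f n).filter (fun s => ¬ Good f (p / 2) (q / 2) (min c₀ c') δ s)).card : ℝ) ≤
      (((SW f n).filter (fun s => ∃ i m : ℕ, ∃ h : i + m ≤ n, (n : ℝ) ^ δ ≤ m ∧
          sub s i m h ∈ badW f (p / 2) (q / 2) c₀ m)).card : ℝ) := by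
    exact_mod_cast card_le_card h2
  refine h3.trans (h1.trans ?_)
  have e1 : Real.exp (-(n : ℝ) ^ c') ≤ Real.exp (-(n : ℝ) ^ (min c₀ c')) := by
    rw [Real.exp_le_exp, neg_le_neg_iff]
    exact Real.rpow_le_rpow_of_exponent_le hnR (min_le_right _ _)
  have i1 : c'⁻¹ ≤ (min c₀ c')⁻¹ := inv_anti₀ hm (min_le_right _ _)
  gcongr

end MS
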