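import Pool.Agent.MS.Stmt

/-!
# The curve of the walk in its natural time

`iw f s x`: the walk interpolated linearly, `x` = time in steps.
-/

set_option autoImplicit false
open scoped Classical

noncomputable section

namespace MS

open Finset

/-- the walk at the real time `x`, linear between the integer times -/
def iw (f : ℕ → Fin 3 → ℂ) {n : ℕ} (s : Fin n → Fin 3) (x : ℝ) : ℂ :=
  pw f s ⌊x⌋₊ + ((x - ⌊x⌋₊ : ℝ) : ℂ) * (pw f s (⌊x⌋₊ + 1) - pw f s ⌊x⌋₊)

section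

variable {f : ℕ → Fin 3 → ℂ} (hf : Hex f) {n : ℕ} (s : Fin n → Fin 3)

include hf in
theorem step_le (k : ℕ) : ‖pw f s (k + 1) - pw f s k‖ ≤ 1 := by
  rcases lt_or_ge k n with h | h
  · rw [pw_succ f s k h, add_sub_cancel_left]
    exact (hf.norm_step _ _).le
  · have e : pw f s (k + 1) = pw f s k := by
      unfold pw
      congr 1
      ext i
      simp only [mem_filter, mem_univ, true_and]
      have := i.2
      omega
    rw [e, sub_self, norm_zero]
    exact zero_le_one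

include hf in
theorem steps_le (i j : ℕ) (h : i ≤ j) : ‖pw f s j - pw f s i‖ ≤ (j : ℝ) - i := by
  induction j, h using Nat.le_induction with
  | base => rw [sub_self, norm_zero, sub_self]
  | succ j hj ih =>
    have h1 := step_le hf s j
    have h2 : ‖pw f s (j + 1) - pw f s i‖ ≤ ‖pw f s (j + 1) - pw f s j‖ + ‖pw f s j - pw f s i‖ := by
      have : pw f s (j + 1) - pw f s i = (pw f s (j + 1) - pw f s j) + (pw f s j - pw f s i) := by ring
      rw [this]
      exact norm_add_le _ _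
    push_cast
    linarith

theorem iw_nat (k : ℕ) : iw f s k = pw f s k := by
  unfold iw
  rw [Nat.floor_natCast, sub_self, Complex.ofReal_zero, zero_mul, add_zero]

/-- the interpolated walk stays in a ball that contains the walk -/
theorem iw_mem_ball {x : ℝ} {i j : ℕ} (hi : (i : ℝ) ≤ x) (hj : x ≤ j) {z : ℂ} {R : ℝ}
    (h : ∀ k : ℕ, i ≤ k → k ≤ j → ‖pw f s k - z‖ ≤ R) : ‖iw f s x - z‖ ≤ R := by
  have hx : 0 ≤ x := (Nat.cast_nonneg i).trans hi
  have h1 : i ≤ ⌊x⌋₊ := Nat.le_floor hi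
  have h2 : ⌊x⌋₊ ≤ j := by
    have := Nat.floor_le_floor hj
    rwa [Nat.floor_natCast] at this
  rcases h2.eq_or_lt with h3 | h3
  · have h4 : x = j := le_antisymm hj (by
      have := Nat.floor_le hx
      rwa [h3] at this)
    rw [h4, iw_nat]
    exact h j (h3 ▸ h1) le_rfl
  · set t : ℝ := x - ⌊x⌋₊ with ht
    have ht0 : 0 ≤ t := by
      have := Nat.floor_le hx
      linarith
    have ht1 : t ≤ 1 := by
      have := (Nat.lt_floor_add_one x).le
      linarith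
    have e : iw f s x - z = ((1 - t : ℝ) : ℂ) * (pw f s ⌊x⌋₊ - z) +
        (t : ℂ) * (pw f s (⌊x⌋₊ + 1) - z) := by
      unfold iw
      rw [← ht]
      push_cast
      ring
    rw [e]
    refine (norm_add_le _ _).trans ?_
    rw [norm_mul, norm_mul, Complex.norm_of_nonneg (by linarith), Complex.norm_of_nonneg ht0]
    have a1 := h ⌊x⌋₊ h1 h3.le
    have a2 := h (⌊x⌋₊ + 1) (by omega) (by omega)
    nlinarith

include hf in
/-- unit speed -/
theorem iw_lip {x y : ℝ} (hx : 0 ≤ x) (hxy : x ≤ y) : ‖iw f s y - iw f s x‖ ≤ y - x := by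
  set i := ⌊x⌋₊ with hi
  set j := ⌊y⌋₊ with hj
  have hi1 : (i : ℝ) ≤ x := Nat.floor_le hx
  have hi2 : x < i + 1 := Nat.lt_floor_add_one x
  have hj1 : (j : ℝ) ≤ y := Nat.floor_le (hx.trans hxy)
  have hij : i ≤ j := Nat.floor_le_floor hxy
  rcases hij.eq_or_lt with h | h
  · have e : iw f s y - iw f s x = ((y - x : ℝ) : ℂ) * (pw f s (i + 1) - pw f s i) := by
      unfold iw
      rw [← hi, ← hj, ← h]
      push_cast
      ring
    rw [e, norm_mul, Complex.norm_of_nonneg (by linarith)]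
    have := step_le hf s i
    nlinarith
  · have e1 : iw f s y - pw f s j = ((y - j : ℝ) : ℂ) * (pw f s (j + 1) - pw f s j) := by
      unfold iw
      rw [← hj]
      ring
    have e2 : pw f s (i + 1) - iw f s x = ((i + 1 - x : ℝ) : ℂ) * (pw f s (i + 1) - pw f s i) := by
      unfold iw
      rw [← hi]
      push_cast
      ring
    have n1 : ‖iw f s y - pw f s j‖ ≤ y - j := by
      rw [e1, norm_mul, Complex.norm_of_nonneg (by linarith)]
      have := step_le hf s j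
      nlinarith
    have n2 : ‖pw f s (i + 1) - iw f s x‖ ≤ i + 1 - x := by
      rw [e2, norm_mul, Complex.norm_of_nonneg (by linarith)]
      have := step_le hf s i
      nlinarith
    have n3 := steps_le hf s (i + 1) j h
    push_cast at n3
    have e3 : iw f s y - iw f s x = (iw f s y - pw f s j) + (pw f s j - pw f s (i + 1)) +
        (pw f s (i + 1) - iw f s x) := by ring
    rw [e3]
    have := norm_add_le ((iw f s y - pw f s j) + (pw f s j - pw f s (i + 1)))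
      (pw f s (i + 1) - iw f s x)
    have := norm_add_le (iw f s y - pw f s j) (pw f s j - pw f s (i + 1))
    linarith

include hf in
/-- **modulus of continuity of a regular walk** -/
theorem iw_upper {η c : ℝ} (hη : 0 < η) (hη4 : η ≤ 1 / 4) (hc : 0 < c) (hc1 : c ≤ 1)
    (h : Reg f (3 / 4 - η) (3 / 4 + η) c η s) {x y : ℝ} (hx : 0 ≤ x) (hxy : x ≤ y) (hy : y ≤ n) :
    ‖iw f s y - iw f s x‖ ≤ 6 * c⁻¹ * (n : ℝ) ^ η * (y - x) ^ (3 / 4 : ℝ) := by
  have hci : 1 ≤ c⁻¹ := (one_le_inv₀ hc).2 hc1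
  rcases hxy.eq_or_lt with rfl | hlt
  · rw [sub_self, norm_zero]
    positivity
  have hd : 0 < y - x := by linarith
  have hn0 : 0 < n := by
    by_contra h0
    have : n = 0 := by omega
    subst this
    simp at hy
    linarith
  have hnR : (1 : ℝ) ≤ n := by exact_mod_cast hn0
  have hyx : y - x ≤ n := by linarith
  rcases lt_or_ge (y - x) ((n : ℝ) ^ η) with hs | hs
  · have h1 := iw_lip hf s hx hxy
    have h2 : y - x = (y - x) ^ (3 / 4 : ℝ) * (y - x) ^ (1 / 4 : ℝ) := by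
      rw [← Real.rpow_add hd]
      norm_num
    have h3 : (y - x) ^ (1 / 4 : ℝ) ≤ (n : ℝ) ^ η := by
      calc (y - x) ^ (1 / 4 : ℝ) ≤ ((n : ℝ) ^ η) ^ (1 / 4 : ℝ) :=
            Real.rpow_le_rpow hd.le hs.le (by norm_num)
        _ ≤ ((n : ℝ) ^ η) ^ (1 : ℝ) :=
            Real.rpow_le_rpow_of_exponent_le (Real.one_le_rpow hnR hη.le) (by norm_num)
        _ = (n : ℝ) ^ η := Real.rpow_one _
    have h4 : 0 < (y - x) ^ (3 / 4 : ℝ) := by positivity
    have h5 : 0 < (n : ℝ) ^ η := by positivity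
    calc ‖iw f s y - iw f s x‖ ≤ y - x := h1
      _ = (y - x) ^ (3 / 4 : ℝ) * (y - x) ^ (1 / 4 : ℝ) := h2
      _ ≤ (y - x) ^ (3 / 4 : ℝ) * (n : ℝ) ^ η := mul_le_mul_of_nonneg_left h3 h4.le
      _ = 1 * ((n : ℝ) ^ η * (y - x) ^ (3 / 4 : ℝ)) := by ring
      _ ≤ 6 * c⁻¹ * ((n : ℝ) ^ η * (y - x) ^ (3 / 4 : ℝ)) := by
        refine mul_le_mul_of_nonneg_right ?_ (by positivity)
        linarith
      _ = _ := by ring
  · set i := ⌊x⌋₊ with hi
    set j := ⌈y⌉₊ with hj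
    have hi1 : (i : ℝ) ≤ x := Nat.floor_le hx
    have hi2 : x < i + 1 := Nat.lt_floor_add_one x
    have hj1 : y ≤ j := Nat.le_ceil y
    have hj2 : (j : ℝ) < y + 1 := Nat.ceil_lt_add_one (hx.trans hxy)
    have hjn : j ≤ n := Nat.ceil_le.2 hy
    have h1n : (1 : ℝ) ≤ (n : ℝ) ^ η := Real.one_le_rpow hnR hη.le
    have hij : i < j := by
      have : (i : ℝ) < j := by linarith
      exact_mod_cast this
    obtain ⟨-, h2⟩ := h i j hij hjn (by linarith)
    have hR := fun k hk1 hk2 => h2 k hk1 hk2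
    have b1 := iw_mem_ball s hi1 (hxy.trans hj1) hR
    have b2 := iw_mem_ball s (hi1.trans hxy) hj1 hR
    have h3 : ‖iw f s y - iw f s x‖ ≤ 2 * (c⁻¹ * ((j : ℝ) - i) ^ (3 / 4 + η)) := by
      have e : iw f s y - iw f s x = (iw f s y - pw f s i) - (iw f s x - pw f s i) := by ring
      rw [e]
      have := norm_sub_le (iw f s y - pw f s i) (iw f s x - pw f s i)
      linarith
    have h4 : ((j : ℝ) - i) ^ (3 / 4 + η) ≤ 3 * ((n : ℝ) ^ η * (y - x) ^ (3 / 4 : ℝ)) := by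
      have h5 : (j : ℝ) - i ≤ 3 * (y - x) := by linarith
      have h6 : (3 : ℝ) ^ (3 / 4 + η) ≤ 3 := by
        calc (3 : ℝ) ^ (3 / 4 + η) ≤ (3 : ℝ) ^ (1 : ℝ) :=
              Real.rpow_le_rpow_of_exponent_le (by norm_num) (by linarith)
          _ = 3 := Real.rpow_one _
      have h7 : (y - x) ^ η ≤ (n : ℝ) ^ η := Real.rpow_le_rpow hd.le hyx hη.le
      calc ((j : ℝ) - i) ^ (3 / 4 + η) ≤ (3 * (y - x)) ^ (3 / 4 + η) :=
            Real.rpow_le_rpow (by linarith) h5 (by linarith)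
        _ = (3 : ℝ) ^ (3 / 4 + η) * ((y - x) ^ (3 / 4 : ℝ) * (y - x) ^ η) := by
            rw [Real.mul_rpow (by norm_num) hd.le, Real.rpow_add hd]
        _ ≤ 3 * ((y - x) ^ (3 / 4 : ℝ) * (n : ℝ) ^ η) := by gcongr
        _ = _ := by ring
    calc ‖iw f s y - iw f s x‖ ≤ 2 * (c⁻¹ * ((j : ℝ) - i) ^ (3 / 4 + η)) := h3
      _ ≤ 2 * (c⁻¹ * (3 * ((n : ℝ) ^ η * (y - x) ^ (3 / 4 : ℝ)))) := by gcongr
      _ = _ := by ring

/-- **oscillation of a regular walk** -/
theorem iw_lower {η c : ℝ} (hη : 0 < η) (hη4 : η ≤ 1 / 4) (hc : 0 < c)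
    (h : Reg f (3 / 4 - η) (3 / 4 + η) c η s) {x y : ℝ} (hx : 0 ≤ x) (hy : y ≤ n)
    (h4 : 4 ≤ y - x) (h5 : 2 * (n : ℝ) ^ η ≤ y - x) :
    ∃ z : ℝ, x ≤ z ∧ z ≤ y ∧ c / 4 * (n : ℝ) ^ (-η) * (y - x) ^ (3 / 4 : ℝ) ≤ ‖iw f s z - iw f s x‖ := by
  have hd : 0 < y - x := by linarith
  set i := ⌈x⌉₊ with hi
  set j := ⌊y⌋₊ with hj
  have hi1 : x ≤ i := Nat.le_ceil x
  have hi2 : (i : ℝ) < x + 1 := Nat.ceil_lt_add_one hx
  have hj1 : (j : ℝ) ≤ y := Nat.floor_le (by linarith)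
  have hj2 : y < j + 1 := Nat.lt_floor_add_one y
  have hjn : j ≤ n := by
    have : (j : ℝ) ≤ n := hj1.trans hy
    exact_mod_cast this
  have hij' : (i : ℝ) < j := by linarith
  have hij : i < j := by exact_mod_cast hij'
  have hn0 : 0 < n := by omega
  have hnR : (1 : ℝ) ≤ n := by exact_mod_cast hn0
  obtain ⟨⟨k, hk1, hk2, h6⟩, -⟩ := h i j hij hjn (by linarith)
  have h7 : (y - x) / 2 ≤ (j : ℝ) - i := by linarith
  have h8 : (n : ℝ) ^ (-η) * (y - x) ^ (3 / 4 : ℝ) / 2 ≤ ((j : ℝ) - i) ^ (3 / 4 - η) := by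
    have h9 : (n : ℝ) ^ (-η) ≤ (y - x) ^ (-η) := by
      rw [Real.rpow_neg (by linarith), Real.rpow_neg hd.le]
      exact inv_anti₀ (by positivity) (Real.rpow_le_rpow hd.le (by linarith) hη.le)
    have h10 : (1 : ℝ) / 2 ≤ (1 / 2 : ℝ) ^ (3 / 4 - η) := by
      calc (1 : ℝ) / 2 = (1 / 2 : ℝ) ^ (1 : ℝ) := (Real.rpow_one _).symm
        _ ≤ _ := Real.rpow_le_rpow_of_exponent_ge (by norm_num) (by norm_num) (by linarith)
    calc (n : ℝ) ^ (-η) * (y - x) ^ (3 / 4 : ℝ) / 2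
        ≤ (y - x) ^ (-η) * (y - x) ^ (3 / 4 : ℝ) * (1 / 2) := by
          rw [div_eq_mul_inv, ← one_div]
          gcongr
      _ = (y - x) ^ (3 / 4 - η) * (1 / 2) := by
          rw [← Real.rpow_add hd]
          congr 2
          ring
      _ ≤ (y - x) ^ (3 / 4 - η) * (1 / 2 : ℝ) ^ (3 / 4 - η) :=
          mul_le_mul_of_nonneg_left h10 (by positivity)
      _ = ((y - x) / 2) ^ (3 / 4 - η) := by
          rw [← Real.mul_rpow hd.le (by norm_num)]
          congr 1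
          ring
      _ ≤ _ := Real.rpow_le_rpow (by positivity) h7 (by linarith)
  have h11 : c / 4 * (n : ℝ) ^ (-η) * (y - x) ^ (3 / 4 : ℝ) * 2 ≤ ‖pw f s k - pw f s i‖ := by
    calc c / 4 * (n : ℝ) ^ (-η) * (y - x) ^ (3 / 4 : ℝ) * 2
        = c * ((n : ℝ) ^ (-η) * (y - x) ^ (3 / 4 : ℝ) / 2) := by ring
      _ ≤ c * ((j : ℝ) - i) ^ (3 / 4 - η) := mul_le_mul_of_nonneg_left h8 hc.le
      _ ≤ _ := h6
  have h12 : ‖pw f s k - pw f s i‖ ≤ ‖iw f s k - iw f s x‖ + ‖iw f s i - iw f s x‖ := by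
    rw [iw_nat, iw_nat]
    have e : pw f s k - pw f s i = (pw f s k - iw f s x) - (pw f s i - iw f s x) := by ring
    rw [e]
    exact norm_sub_le _ _
  have hki : (i : ℝ) ≤ k := by exact_mod_cast hk1
  have hkj : (k : ℝ) ≤ j := by exact_mod_cast hk2
  rcases le_or_gt (c / 4 * (n : ℝ) ^ (-η) * (y - x) ^ (3 / 4 : ℝ)) ‖iw f s k - iw f s x‖ with h13 | h13
  · exact ⟨k, by linarith, by linarith, h13⟩
  · exact ⟨i, by linarith, by linarith, by linarith⟩

end

end MS
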