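import Pool.Agent.MS.Scales

/-!
# Walks that are regular at all scales: time spent far from a point
-/

set_option autoImplicit false
open scoped Classical

noncomputable section

namespace MS

open Finset

/-- regular at all scales `≥ n^δ` -/
def Good (f : ℕ → Fin 3 → ℂ) (a b c δ : ℝ) {n : ℕ} (s : Fin n → Fin 3) : Prop :=
  ∀ i m : ℕ, i + m ≤ n → 1 ≤ m → (n : ℝ) ^ δ ≤ m →
    (∃ j : ℕ, j ≤ m ∧ c * (m : ℝ) ^ a < ‖pw f s (i + j) - pw f s i‖) ∧
    ∀ j : ℕ, j ≤ m → ‖pw f s (i + j) - pw f s i‖ ≤ c⁻¹ * (m : ℝ) ^ b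

/-- **time spent far from a point** -/
theorem far_time {f : ℕ → Fin 3 → ℂ} {a b c δ : ℝ} (hc : 0 < c) {n : ℕ}
    {s : Fin n → Fin 3} (h : Good f a b c δ s) (hn : 1 ≤ n) (hδ : (n : ℝ) ^ δ ≤ n) {L : ℕ}
    (hL1 : 1 ≤ L) (hL2 : 2 * L ≤ n) (hL3 : (n : ℝ) ^ δ ≤ L)
    (hL4 : (L : ℝ) ^ b ≤ c ^ 2 * (n : ℝ) ^ a / 8) (x : ℂ) :
    L ≤ ((range (n + 1)).filter (fun k => c * (n : ℝ) ^ a / 4 ≤ ‖pw f s k - x‖)).card := by
  have hcn : 0 ≤ c * (n : ℝ) ^ a := by positivity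
  -- one far point
  obtain ⟨k, hk, hkx⟩ : ∃ k : ℕ, k ≤ n ∧ c * (n : ℝ) ^ a / 2 ≤ ‖pw f s k - x‖ := by
    by_contra hcon
    push Not at hcon
    obtain ⟨⟨j, hj, hj2⟩, -⟩ := h 0 n (by omega) hn hδ
    have h1 := hcon 0 (by omega)
    have h2 := hcon j hj
    rw [zero_add] at hj2
    have h3 : ‖pw f s j - pw f s 0‖ ≤ ‖pw f s j - x‖ + ‖pw f s 0 - x‖ := by
      have : pw f s j - pw f s 0 = (pw f s j - x) - (pw f s 0 - x) := by ring
      rw [this]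
      exact norm_sub_le _ _
    linarith
  have hL5 : c⁻¹ * (L : ℝ) ^ b ≤ c * (n : ℝ) ^ a / 8 := by
    rw [inv_mul_le_iff₀ hc]
    calc (L : ℝ) ^ b ≤ c ^ 2 * (n : ℝ) ^ a / 8 := hL4
      _ = _ := by ring
  -- a block of times
  obtain ⟨i, hi, hik⟩ : ∃ i : ℕ, i + L ≤ n ∧ ∀ j ≤ L, ‖pw f s (i + j) - pw f s k‖ ≤
      c * (n : ℝ) ^ a / 4 := by
    rcases le_or_gt (k + L) n with hkL | hkL
    · refine ⟨k, hkL, fun j hj => ?_⟩
      have := (h k L hkL hL1 hL3).2 j hj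
      linarith
    · refine ⟨k - L, by omega, fun j hj => ?_⟩
      have h1 := (h (k - L) L (by omega) hL1 hL3).2 j hj
      have h2 := (h (k - L) L (by omega) hL1 hL3).2 L le_rfl
      have e : k - L + L = k := by omega
      rw [e] at h2
      have h3 : ‖pw f s (k - L + j) - pw f s k‖ ≤
          ‖pw f s (k - L + j) - pw f s (k - L)‖ + ‖pw f s k - pw f s (k - L)‖ := by
        have : pw f s (k - L + j) - pw f s k =
            (pw f s (k - L + j) - pw f s (k - L)) - (pw f s k - pw f s (k - L)) := by ring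
        rw [this]
        exact norm_sub_le _ _
      linarith
  have hsub : (range L).image (fun j => i + j) ⊆
      (range (n + 1)).filter (fun k => c * (n : ℝ) ^ a / 4 ≤ ‖pw f s k - x‖) := by
    intro t ht
    rw [mem_image] at ht
    obtain ⟨j, hj, rfl⟩ := ht
    rw [mem_range] at hj
    rw [mem_filter, mem_range]
    refine ⟨by omega, ?_⟩
    have h1 := hik j hj.le
    have h2 : ‖pw f s k - x‖ ≤ ‖pw f s (i + j) - x‖ + ‖pw f s (i + j) - pw f s k‖ := by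
      have : pw f s k - x = (pw f s (i + j) - x) - (pw f s (i + j) - pw f s k) := by ring
      rw [this]
      exact norm_sub_le _ _
    linarith
  have := card_le_card hsub
  rwa [card_image_of_injective _ (add_right_injective i), card_range] at this

/-- second moment around a point -/
theorem sum_sq_far {f : ℕ → Fin 3 → ℂ} {a b c δ : ℝ} (hc : 0 < c) {n : ℕ}
    {s : Fin n → Fin 3} (h : Good f a b c δ s) (hn : 1 ≤ n) (hδ : (n : ℝ) ^ δ ≤ n) {L : ℕ}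
    (hL1 : 1 ≤ L) (hL2 : 2 * L ≤ n) (hL3 : (n : ℝ) ^ δ ≤ L)
    (hL4 : (L : ℝ) ^ b ≤ c ^ 2 * (n : ℝ) ^ a / 8) (x : ℂ) :
    (L : ℝ) * (c * (n : ℝ) ^ a / 4) ^ 2 ≤ ∑ k ∈ range (n + 1), ‖pw f s k - x‖ ^ 2 := by
  have h1 := far_time hc h hn hδ hL1 hL2 hL3 hL4 x
  have h2 : ∑ _k ∈ (range (n + 1)).filter (fun k => c * (n : ℝ) ^ a / 4 ≤ ‖pw f s k - x‖),
      (c * (n : ℝ) ^ a / 4) ^ 2 ≤ ∑ k ∈ range (n + 1), ‖pw f s k - x‖ ^ 2 := by
    refine (sum_le_sum fun k hk => ?_).trans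
      (sum_le_sum_of_subset_of_nonneg (filter_subset _ _) fun _ _ _ => by positivity)
    rw [mem_filter] at hk
    exact pow_le_pow_left₀ (by positivity) hk.2 2
  rw [sum_const, nsmul_eq_mul] at h2
  have h3 : (L : ℝ) ≤ (((range (n + 1)).filter
      (fun k => c * (n : ℝ) ^ a / 4 ≤ ‖pw f s k - x‖)).card : ℝ) := by exact_mod_cast h1
  exact (mul_le_mul_of_nonneg_right h3 (by positivity)).trans h2

/-- length of the blocks -/
theorem exists_L {a b c δ : ℝ} (ha : 0 < a) (hab : a ≤ b) (hb : b ≤ 1) (hc : 0 < c) (hc1 : c ≤ 1)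
    (hδ : δ < a / b) : ∃ κ : ℝ, 0 < κ ∧ ∃ n₀ : ℕ, 1 ≤ n₀ ∧ ∀ n : ℕ, n₀ ≤ n →
      (n : ℝ) ^ δ ≤ n ∧ ∃ L : ℕ, 1 ≤ L ∧ 2 * L ≤ n ∧ (n : ℝ) ^ δ ≤ L ∧
        (L : ℝ) ^ b ≤ c ^ 2 * (n : ℝ) ^ a / 8 ∧ κ * (n : ℝ) ^ (a / b) ≤ L := by
  have hb0 : 0 < b := by linarith
  have hab1 : a / b ≤ 1 := by rw [div_le_one hb0]; exact hab
  have hab0 : 0 < a / b := by positivity
  set t : ℝ := (c ^ 2 / 8) ^ (1 / b) with ht
  have ht0 : 0 < t := by positivity
  have ht1 : t ≤ 1 / 8 := by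
    have h1 : c ^ 2 / 8 ≤ 1 / 8 := by nlinarith
    calc t ≤ (c ^ 2 / 8) ^ (1 : ℝ) := by
          rw [ht]
          refine Real.rpow_le_rpow_of_exponent_ge (by positivity) (by linarith) ?_
          rw [le_div_iff₀ hb0]
          linarith
      _ ≤ 1 / 8 := by rw [Real.rpow_one]; exact h1
  -- `n` large
  have l1 : Filter.Tendsto (fun n : ℕ => (n : ℝ) ^ (a / b - max δ 0)) Filter.atTop Filter.atTop := by
    refine (tendsto_rpow_atTop ?_).comp tendsto_natCast_atTop_atTop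
    rcases le_total δ 0 with h | h
    · rw [max_eq_right h]
      linarith
    · rw [max_eq_left h]
      linarith
  obtain ⟨n₁, hn₁⟩ := (Filter.tendsto_atTop.1 l1 (2 / t)).exists_forall_of_atTop
  refine ⟨t / 2, by positivity, max n₁ 1, le_max_right _ _, fun n hn => ?_⟩
  have hn1 : 1 ≤ n := (le_max_right _ _).trans hn
  have hnR : (1 : ℝ) ≤ n := by exact_mod_cast hn1
  have hn0 : (0 : ℝ) < n := by linarith
  have h1 := hn₁ n ((le_max_left _ _).trans hn)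
  have h2 : (n : ℝ) ^ δ ≤ (n : ℝ) ^ max δ 0 :=
    Real.rpow_le_rpow_of_exponent_le hnR (le_max_left _ _)
  have h3 : (1 : ℝ) ≤ (n : ℝ) ^ max δ 0 := Real.one_le_rpow hnR (le_max_right _ _)
  have h4 : 2 * (n : ℝ) ^ max δ 0 ≤ t * (n : ℝ) ^ (a / b) := by
    have e : (n : ℝ) ^ (a / b) = (n : ℝ) ^ (a / b - max δ 0) * (n : ℝ) ^ max δ 0 := by
      rw [← Real.rpow_add hn0]
      congr 1
      ring
    rw [e]
    have h5 : 2 ≤ t * (n : ℝ) ^ (a / b - max δ 0) := by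
      calc (2 : ℝ) = t * (2 / t) := by field_simp
        _ ≤ _ := mul_le_mul_of_nonneg_left h1 ht0.le
    calc 2 * (n : ℝ) ^ max δ 0 ≤ (t * (n : ℝ) ^ (a / b - max δ 0)) * (n : ℝ) ^ max δ 0 :=
          mul_le_mul_of_nonneg_right h5 (by positivity)
      _ = _ := by ring
  have h5 : (n : ℝ) ^ (a / b) ≤ n := by
    calc (n : ℝ) ^ (a / b) ≤ (n : ℝ) ^ (1 : ℝ) := Real.rpow_le_rpow_of_exponent_le hnR hab1
      _ = n := Real.rpow_one _
  set L : ℕ := ⌊t * (n : ℝ) ^ (a / b)⌋₊ with hL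
  have hpos : 0 ≤ t * (n : ℝ) ^ (a / b) := by positivity
  have hL1 : (L : ℝ) ≤ t * (n : ℝ) ^ (a / b) := Nat.floor_le hpos
  have hL2 : t * (n : ℝ) ^ (a / b) < L + 1 := Nat.lt_floor_add_one _
  have hL3 : t * (n : ℝ) ^ (a / b) / 2 ≤ L := by
    have : 2 ≤ t * (n : ℝ) ^ (a / b) := by linarith
    linarith
  refine ⟨?_, L, ?_, ?_, ?_, ?_, ?_⟩
  · have : (n : ℝ) ^ max δ 0 ≤ (n : ℝ) ^ (1 : ℝ) := by
      refine Real.rpow_le_rpow_of_exponent_le hnR ?_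
      rcases le_total δ 0 with h | h
      · rw [max_eq_right h]
        norm_num
      · rw [max_eq_left h]
        linarith
    rw [Real.rpow_one] at this
    linarith
  · have : (1 : ℝ) ≤ L := by linarith
    exact_mod_cast this
  · have : (2 : ℝ) * L ≤ n := by nlinarith
    exact_mod_cast this
  · linarith
  · calc (L : ℝ) ^ b ≤ (t * (n : ℝ) ^ (a / b)) ^ b := Real.rpow_le_rpow (by positivity) hL1 hb0.le
      _ = c ^ 2 * (n : ℝ) ^ a / 8 := by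
        rw [Real.mul_rpow ht0.le (by positivity), ht, ← Real.rpow_mul (by positivity),
          ← Real.rpow_mul hn0.le, one_div_mul_cancel hb0.ne', div_mul_cancel₀ _ hb0.ne',
          Real.rpow_one]
        ring
  · linarith

end MS
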