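import Pool.Agent.MS.Size
import Pool.Agent.T2.ResMax

/-!
# All sizes and all scales from the tails of the maximal displacement
-/

set_option autoImplicit false
open scoped Classical

noncomputable section

namespace MS

open Finset

/-- mean over the self-avoiding walks -/
def Ev (f : ℕ → Fin 3 → ℂ) (n : ℕ) (R : (Fin n → Fin 3) → ℝ) : ℝ :=
  (∑ s ∈ SW f n, R s) / ((SW f n).card : ℝ)

/-- the mean of the square of the end-to-end distance from below -/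
def LowE (p : ℝ) : Prop := ∃ c : ℝ, 0 < c ∧ ∀ f : ℕ → Fin 3 → ℂ, Hex f → ∀ n : ℕ, 1 ≤ n →
  c * (n : ℝ) ^ p ≤ Ev f n (fun s => ‖pw f s n‖ ^ 2)

/-- two-sided bound -/
def Bd (c : ℝ) (n : ℕ) (p q E : ℝ) : Prop := c * (n : ℝ) ^ p ≤ E ∧ E ≤ c⁻¹ * (n : ℝ) ^ q

theorem Bd.mono {c c' p q E : ℝ} {n : ℕ} (h : Bd c n p q E) (hc' : 0 < c') (hcc : c' ≤ c) :
    Bd c' n p q E :=
  ⟨(mul_le_mul_of_nonneg_right hcc (by positivity)).trans h.1,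
    h.2.trans (mul_le_mul_of_nonneg_right (inv_anti₀ hc' hcc) (by positivity))⟩

theorem pw_last (f : ℕ → Fin 3 → ℂ) {n : ℕ} (s : Fin n → Fin 3) :
    pw f s n = ∑ i : Fin n, f (i : ℕ) (s i) := by
  unfold pw
  rw [filter_true_of_mem fun i _ => i.2]

theorem Ev_mono (f : ℕ → Fin 3 → ℂ) (n : ℕ) {R R' : (Fin n → Fin 3) → ℝ} (h : ∀ s, R s ≤ R' s) :
    Ev f n R ≤ Ev f n R' := by
  unfold Ev
  have := sum_le_sum fun s (_ : s ∈ SW f n) => h s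
  gcongr

theorem Ev_smul (f : ℕ → Fin 3 → ℂ) (n : ℕ) (a : ℝ) (R : (Fin n → Fin 3) → ℝ) :
    Ev f n (fun s => a * R s) = a * Ev f n R := by
  unfold Ev
  rw [← mul_sum, mul_div_assoc]

/-- mean of the maximal displacement from above -/
theorem upM_of {q : ℝ} (hq : 0 < q) (hU : UpT q) : ∃ c : ℝ, 0 < c ∧
    ∀ f : ℕ → Fin 3 → ℂ, Hex f → ∀ n : ℕ, 1 ≤ n → Ev f n (Mx f) ≤ c⁻¹ * (n : ℝ) ^ q := by
  obtain ⟨c, hc, h⟩ := hU
  obtain ⟨c', hc', h'⟩ := HexObs.T2.result_max hq ⟨c, hc, fun f hf n hn W hW => by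
    subst hW
    exact h f hf n hn⟩
  exact ⟨c', hc', fun f hf n hn => (h' f hf n hn (SW f n) rfl).1⟩

/-- **all sizes, all scales** -/
theorem main {p q δ : ℝ} (hp : 0 < p) (hpq : p ≤ q) (hq : q ≤ 2) (hδ : 0 < δ) (hE : LowE p)
    (hL : LowT p) (hU : UpT q) : ∃ c : ℝ, 0 < c ∧ c ≤ 1 ∧ ∀ f : ℕ → Fin 3 → ℂ, Hex f →
      ∀ n : ℕ, 1 ≤ n →
      Bd c n p q (Ev f n (fun s => ‖pw f s n‖ ^ 2)) ∧ Bd c n p q (Ev f n (Mx f)) ∧
      Bd c n (p + p / q - 1) q (Ev f n (Rg f)) ∧ Bd c n (p + p / q - 1) q (Ev f n (Rm f)) ∧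
      (((SW f n).filter (fun s => ¬ Good f (p / 2) (q / 2) c δ s)).card : ℝ) ≤
        c⁻¹ * Real.exp (-(n : ℝ) ^ c) * ((SW f n).card : ℝ) := by
  obtain ⟨c₁, hc₁, h1⟩ := hE
  obtain ⟨c₂, hc₂, h2⟩ := upM_of (by linarith) hU
  obtain ⟨c₃, hc₃, h3⟩ := size_lower hp hpq hq hL hU
  obtain ⟨c₄, hc₄, hc₄1, h4⟩ := all_scales hδ hL hU
  set c := min (min c₁ (c₂ / 3)) (min c₃ c₄) with hc
  have hc0 : 0 < c := lt_min (lt_min hc₁ (by positivity)) (lt_min hc₃ hc₄)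
  have e1 : c ≤ c₁ := (min_le_left _ _).trans (min_le_left _ _)
  have e2 : c ≤ c₂ / 3 := (min_le_left _ _).trans (min_le_right _ _)
  have e3 : c ≤ c₃ := (min_le_right _ _).trans (min_le_left _ _)
  have e4 : c ≤ c₄ := (min_le_right _ _).trans (min_le_right _ _)
  refine ⟨c, hc0, e4.trans hc₄1, fun f hf n hn => ?_⟩
  have hnR : (1 : ℝ) ≤ n := by exact_mod_cast hn
  have u := h2 f hf n hn
  have hnq : 0 < (n : ℝ) ^ q := by positivity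
  have i2 : 3 * c₂⁻¹ ≤ c⁻¹ := by
    have := inv_anti₀ hc0 e2
    rw [inv_div] at this
    calc 3 * c₂⁻¹ = 3 / c₂ := by ring
      _ ≤ _ := this
  have up3 : 3 * Ev f n (Mx f) ≤ c⁻¹ * (n : ℝ) ^ q := by
    calc 3 * Ev f n (Mx f) ≤ 3 * (c₂⁻¹ * (n : ℝ) ^ q) := by linarith
      _ = 3 * c₂⁻¹ * (n : ℝ) ^ q := by ring
      _ ≤ _ := mul_le_mul_of_nonneg_right i2 hnq.le
  have hM0 : 0 ≤ Ev f n (Mx f) := by
    unfold Ev
    have : 0 ≤ ∑ s ∈ SW f n, Mx f s := sum_nonneg fun s _ => Mx_nonneg f s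
    positivity
  have ue : Ev f n (fun s => ‖pw f s n‖ ^ 2) ≤ Ev f n (Mx f) :=
    Ev_mono f n fun s => le_Mx f s n le_rfl
  have ug : Ev f n (Rg f) ≤ 2 * Ev f n (Mx f) := by
    rw [← Ev_smul]
    exact Ev_mono f n fun s => Rg_le f s
  have um : Ev f n (Rm f) ≤ 5 / 2 * Ev f n (Mx f) := by
    rw [← Ev_smul]
    exact Ev_mono f n fun s => Rm_le f s
  have l1 := h1 f hf n hn
  have hcn : ∀ x : ℝ, 0 ≤ (n : ℝ) ^ x := fun x => by positivity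
  have l1' : c * (n : ℝ) ^ p ≤ Ev f n (fun s => ‖pw f s n‖ ^ 2) :=
    (mul_le_mul_of_nonneg_right e1 (hcn p)).trans l1
  obtain ⟨-, l3, l4⟩ := h3 f hf n hn
  refine ⟨⟨l1', by linarith⟩, ⟨l1'.trans ue, by linarith⟩,
    ⟨(mul_le_mul_of_nonneg_right e3 (hcn _)).trans l3, by linarith⟩,
    ⟨(mul_le_mul_of_nonneg_right e3 (hcn _)).trans l4, by linarith⟩, ?_⟩
  have h5 := h4 f hf n hn
  have h6 : (SW f n).filter (fun s => ¬ Good f (p / 2) (q / 2) c δ s) ⊆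
      (SW f n).filter (fun s => ¬ Good f (p / 2) (q / 2) c₄ δ s) := by
    intro s hs
    rw [mem_filter] at hs ⊢
    exact ⟨hs.1, fun h => hs.2 (h.mono hc0 e4)⟩
  have h7 : (((SW f n).filter (fun s => ¬ Good f (p / 2) (q / 2) c δ s)).card : ℝ) ≤
      (((SW f n).filter (fun s => ¬ Good f (p / 2) (q / 2) c₄ δ s)).card : ℝ) := by
    exact_mod_cast card_le_card h6
  refine h7.trans (h5.trans ?_)
  have e5 : Real.exp (-(n : ℝ) ^ c₄) ≤ Real.exp (-(n : ℝ) ^ c) := by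
    rw [Real.exp_le_exp, neg_le_neg_iff]
    exact Real.rpow_le_rpow_of_exponent_le hnR e4
  have i1 : c₄⁻¹ ≤ c⁻¹ := inv_anti₀ hc0 e4
  gcongr

/-- the inputs from the two-sided theorem in its usual form -/
theorem inputs {p q : ℝ} (h : ∃ c : ℝ, 0 < c ∧ ∀ f : ℕ → Fin 3 → ℂ,
      (∀ i a, f i a = (-1 : ℂ) ^ i * Complex.exp (2 * (Real.pi : ℂ) * Complex.I * ((a : ℕ) : ℂ) / 3)) →
      ∀ n : ℕ, 1 ≤ n → ∀ W : Finset (Fin n → Fin 3),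
        W = Finset.univ.filter (fun s : Fin n → Fin 3 => ∀ j₁ j₂ : Fin (n + 1),
          (∑ i ∈ Finset.univ.filter (fun i : Fin n => (i : ℕ) < (j₁ : ℕ)), f (i : ℕ) (s i)) =
          (∑ i ∈ Finset.univ.filter (fun i : Fin n => (i : ℕ) < (j₂ : ℕ)), f (i : ℕ) (s i)) →
          j₁ = j₂) →
        (c * (n : ℝ) ^ p ≤ (∑ s ∈ W, ‖∑ i : Fin n, f (i : ℕ) (s i)‖ ^ 2) / (W.card : ℝ) ∧
          (∑ s ∈ W, ‖∑ i : Fin n, f (i : ℕ) (s i)‖ ^ 2) / (W.card : ℝ) ≤ c⁻¹ * (n : ℝ) ^ q) ∧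
        ((W.filter (fun s => ∀ j : Fin (n + 1),
          ‖∑ i ∈ Finset.univ.filter (fun i : Fin n => (i : ℕ) < (j : ℕ)), f (i : ℕ) (s i)‖ ≤
            c * (n : ℝ) ^ (p / 2))).card : ℝ) ≤ c⁻¹ * Real.exp (-(n : ℝ) ^ c) * (W.card : ℝ) ∧
        ((W.filter (fun s => ∃ j : Fin (n + 1), c⁻¹ * (n : ℝ) ^ (q / 2) <
          ‖∑ i ∈ Finset.univ.filter (fun i : Fin n => (i : ℕ) < (j : ℕ)), f (i : ℕ) (s i)‖)).card : ℝ) ≤
            c⁻¹ * Real.exp (-(n : ℝ) ^ c) * (W.card : ℝ)) :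
    LowE p ∧ LowT p ∧ UpT q := by
  obtain ⟨c, hc, h⟩ := h
  refine ⟨⟨c, hc, fun f hf n hn => ?_⟩, ⟨c, hc, fun f hf n hn => ?_⟩,
    ⟨c, hc, fun f hf n hn => ?_⟩⟩
  · have h1 := (h f hf n hn (SW f n) rfl).1.1
    unfold Ev
    simp_rw [pw_last]
    exact h1
  · exact (h f hf n hn (SW f n) rfl).2.1
  · exact (h f hf n hn (SW f n) rfl).2.2

end MS
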