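import Pool.Agent.MS.Stmt
import Pool.Agent.NUF.FINS
import Pool.Agent.TH.Main
import Pool.Agent.T2.MainUp
import Pool.Agent.T2.LongP

/-!
Held version with the exponents known at present: radius of gyration, monomer-endpoint distance and all scales.
-/

set_option autoImplicit false
open scoped Classical

namespace Pool.Agent.MS.ResNow

/-- The step number `i` (starting with `0`) in the direction `a`: the edges of the hexagonal lattice with unit steps. -/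
noncomputable def step (i : ℕ) (a : Fin 3) : ℂ :=
  (-1 : ℂ) ^ i * Complex.exp (2 * (Real.pi : ℂ) * Complex.I * ((a : ℕ) : ℂ) / 3)

/-- The position `w_k` after `k` steps of the walk with the directions `s`. -/
noncomputable def pos {n : ℕ} (s : Fin n → Fin 3) (k : ℕ) : ℂ :=
  ∑ i ∈ Finset.univ.filter (fun i : Fin n => (i : ℕ) < k), step (i : ℕ) (s i)

/-- The self-avoiding walks with `n` steps. -/
noncomputable def saw (n : ℕ) : Finset (Fin n → Fin 3) :=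
  Finset.univ.filter (fun s => ∀ j k : ℕ, j ≤ n → k ≤ n → pos s j = pos s k → j = k)

/-- The mean over the self-avoiding walks with `n` steps. -/
noncomputable def mean (n : ℕ) (R : (Fin n → Fin 3) → ℝ) : ℝ := (∑ s ∈ saw n, R s) / ((saw n).card : ℝ)

/-- The squared radius of gyration. -/
noncomputable def Rg {n : ℕ} (s : Fin n → Fin 3) : ℝ :=
  1 / (2 * ((n : ℝ) + 1) ^ 2) * ∑ i ∈ Finset.range (n + 1), ∑ j ∈ Finset.range (n + 1), ‖pos s i - pos s j‖ ^ 2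

/-- The squared monomer-endpoint distance. -/
noncomputable def Rm {n : ℕ} (s : Fin n → Fin 3) : ℝ :=
  1 / (2 * ((n : ℝ) + 1)) * ∑ i ∈ Finset.range (n + 1), (‖pos s i‖ ^ 2 + ‖pos s i - pos s n‖ ^ 2)

/-- At all the scales `≥ n ^ δ` the size of the piece `w_i, ..., w_j` is between `(j - i) ^ .67` and `(j - i) ^ .8`. -/
def AllScales (c δ : ℝ) {n : ℕ} (s : Fin n → Fin 3) : Prop :=
  ∀ i j : ℕ, i < j → j ≤ n → (n : ℝ) ^ δ ≤ (j : ℝ) - i →
    (∃ k : ℕ, i ≤ k ∧ k ≤ j ∧ c * ((j : ℝ) - i) ^ (67 / 100 : ℝ) ≤ ‖pos s k - pos s i‖) ∧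
    ∀ k : ℕ, i ≤ k → k ≤ j → ‖pos s k - pos s i‖ ≤ c⁻¹ * ((j : ℝ) - i) ^ (4 / 5 : ℝ)

theorem saw_eq (n : ℕ) : saw n = _root_.MS.SW step n := by
  ext s
  rw [_root_.MS.mem_SW]
  unfold saw
  rw [Finset.mem_filter]
  exact ⟨fun h => h.2, fun h => ⟨Finset.mem_univ _, h⟩⟩

theorem rg_eq {n : ℕ} (s : Fin n → Fin 3) : Rg s = _root_.MS.Rg step s := by
  unfold Rg _root_.MS.Rg
  rw [one_div, inv_mul_eq_div]
  rfl

theorem rm_eq {n : ℕ} (s : Fin n → Fin 3) : Rm s = _root_.MS.Rm step s := by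
  unfold Rm _root_.MS.Rm
  rw [one_div, inv_mul_eq_div]
  rfl

theorem low_now {p : ℝ} (hp : p < 72 / (45 + 5 * Real.sqrt 3)) : _root_.MS.LowE p ∧ _root_.MS.LowT p := by
  have hs := Real.sqrt_nonneg 3
  have hs2 : Real.sqrt 3 ≤ 2 := by
    rw [Real.sqrt_le_left (by norm_num)]
    norm_num
  obtain ⟨c, hc, h⟩ := Pool.Agent.NUF.size_lower_of (a := 5 / 4 + 5 * Real.sqrt 3 / 36) (by linarith) (by linarith)
    (fun a' ha' => HexObs.TH.meanLen_main ha') p (by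
      rw [lt_div_iff₀ (by positivity)] at hp
      nlinarith)
  refine ⟨⟨c, hc, fun f hf n hn => ?_⟩, ⟨c, hc, fun f hf n hn => ?_⟩⟩
  · have h1 := (h f hf n hn (_root_.MS.SW f n) rfl).1
    unfold _root_.MS.Ev
    simp_rw [_root_.MS.pw_last]
    exact h1
  · exact (h f hf n hn (_root_.MS.SW f n) rfl).2

theorem up_now : ∃ q : ℝ, 0 < q ∧ q < 8 / 5 ∧ _root_.MS.UpT q := by
  obtain ⟨b, hb, hL⟩ := HexObs.T2.longWalks_pos
  have hd : (0 : ℝ) < 5 / 4 + b / 2 := by linarith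
  refine ⟨2 / (5 / 4 + b / 2), by positivity, ?_, ?_⟩
  · rw [div_lt_iff₀ hd]
    linarith
  · have hq : 2 < 2 / (5 / 4 + b / 2) * (1 + (1 / 4 + b)) := by
      rw [div_mul_eq_mul_div, lt_div_iff₀ hd]
      linarith
    obtain ⟨hB, hS⟩ := HexObs.T2.all_n_up (by linarith) hL hq
    have hq0 : 0 < 2 / (5 / 4 + b / 2) := by positivity
    obtain ⟨c, hc, h⟩ := HexObs.T2.result_up hq0 hS hB
    exact ⟨c, hc, fun f hf n hn => (h f hf n hn (_root_.MS.SW f n) rfl).2⟩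

theorem up_mono {q q' : ℝ} (hq : q ≤ q') (h : _root_.MS.UpT q) : _root_.MS.UpT q' := by
  obtain ⟨c, hc, h⟩ := h
  refine ⟨c, hc, fun f hf n hn => le_trans ?_ (h f hf n hn)⟩
  have hnR : (1 : ℝ) ≤ n := by exact_mod_cast hn
  refine Nat.cast_le.2 (Finset.card_le_card fun s hs => ?_)
  rw [Finset.mem_filter] at hs ⊢
  obtain ⟨hs, j, hj⟩ := hs
  refine ⟨hs, j, lt_of_le_of_lt ?_ hj⟩
  exact mul_le_mul_of_nonneg_left (Real.rpow_le_rpow_of_exponent_le hnR (by linarith)) (by positivity)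

theorem result (δ : ℝ) (hδ : 0 < δ) :
    ∃ c : ℝ, 0 < c ∧ ∀ n : ℕ, 1 ≤ n →
      c * (n : ℝ) ^ (59 / 50 : ℝ) ≤ mean n Rg ∧ c * (n : ℝ) ^ (59 / 50 : ℝ) ≤ mean n Rm ∧
      (((saw n).filter (fun s => ¬ AllScales c δ s)).card : ℝ) ≤
        c⁻¹ * Real.exp (-(n : ℝ) ^ c) * ((saw n).card : ℝ) := by
  have hs3 : Real.sqrt 3 ^ 2 = 3 := Real.sq_sqrt (by norm_num)
  have hs0 := Real.sqrt_nonneg 3
  -- p = 1.3416
  have hp : (13416 / 10000 : ℝ) < 72 / (45 + 5 * Real.sqrt 3) := by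
    rw [lt_div_iff₀ (by positivity)]
    have : Real.sqrt 3 < 1.7328 := by
      rw [show (1.7328 : ℝ) = Real.sqrt (1.7328 ^ 2) by rw [Real.sqrt_sq (by norm_num)]]
      exact Real.sqrt_lt_sqrt (by norm_num) (by norm_num)
    linarith
  obtain ⟨hE, hL⟩ := low_now hp
  obtain ⟨q, hq0, hq, hU⟩ := up_now
  have hU' : _root_.MS.UpT (8 / 5) := up_mono hq.le hU
  obtain ⟨c, hc, hc1, h1⟩ := _root_.MS.main (p := 13416 / 10000) (q := 8 / 5) (by norm_num) (by norm_num)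
    (by norm_num) hδ hE hL hU'
  refine ⟨c, hc, fun n hn => ?_⟩
  have hnR : (1 : ℝ) ≤ n := by exact_mod_cast hn
  obtain ⟨-, -, ⟨a3, -⟩, ⟨a4, -⟩, a5⟩ := h1 step (fun i a => rfl) n hn
  have e3 : mean n Rg = _root_.MS.Ev step n (_root_.MS.Rg step) := by
    unfold mean _root_.MS.Ev
    rw [saw_eq, funext rg_eq]
  have e4 : mean n Rm = _root_.MS.Ev step n (_root_.MS.Rm step) := by
    unfold mean _root_.MS.Ev
    rw [saw_eq, funext rm_eq]
  have e5 : (n : ℝ) ^ (59 / 50 : ℝ) ≤ (n : ℝ) ^ (13416 / 10000 + 13416 / 10000 / (8 / 5) - 1 : ℝ) :=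
    Real.rpow_le_rpow_of_exponent_le hnR (by norm_num)
  rw [e3, e4]
  refine ⟨(mul_le_mul_of_nonneg_left e5 hc.le).trans a3, (mul_le_mul_of_nonneg_left e5 hc.le).trans a4, ?_⟩
  rw [saw_eq]
  refine le_trans ?_ a5
  refine Nat.cast_le.2 (Finset.card_le_card fun s hs => ?_)
  rw [Finset.mem_filter] at hs ⊢
  refine ⟨hs.1, fun hg => hs.2 ?_⟩
  have hr := (hg.reg).mono_exp (a' := 67 / 100) (b' := 4 / 5) (δ' := δ) hc (by norm_num) (by norm_num) le_rfl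
  exact hr

end Pool.Agent.MS.ResNow
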