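import Pool.Agent.MS.Words

/-!
# All scales: rare events of sub-words

`Cnt f μ C`: the number of walks is between `μ^n` and `C (n+1)^C μ^n`.
`rare_sub`: if the sets `A m` are stretched exponentially rare then, with stretched exponentially
large probability, no sub-word of a walk of `n` steps with at least `n^δ` steps is in them.
-/

set_option autoImplicit false
open scoped Classical

noncomputable section

namespace MS

open Finset

/-- two-sided bound of the number of walks -/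
structure Cnt (f : ℕ → Fin 3 → ℂ) (μ C : ℝ) : Prop where
  hμ : 0 < μ
  hC : 1 ≤ C
  lo : ∀ n : ℕ, μ ^ n ≤ ((SW f n).card : ℝ)
  up : ∀ n : ℕ, ((SW f n).card : ℝ) ≤ C * ((n : ℝ) + 1) ^ C * μ ^ n

theorem pow_exp_le (K γ : ℝ) (hK : 0 ≤ K) (hγ : 0 < γ) : ∃ D : ℝ, 0 < D ∧ ∀ n : ℕ, 1 ≤ n →
    ((n : ℝ) + 1) ^ K * Real.exp (-(n : ℝ) ^ γ) ≤ D * Real.exp (-(n : ℝ) ^ (γ / 2)) := by
  set k := ⌈K / γ⌉₊ with hk
  refine ⟨2 ^ K * (2 ^ k * k.factorial) * Real.exp (1 / 2), by positivity, fun n hn => ?_⟩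
  have hnR : (1 : ℝ) ≤ n := by exact_mod_cast hn
  have hn0 : (0 : ℝ) < n := by linarith
  set y := (n : ℝ) ^ γ with hy
  have hy1 : 1 ≤ y := Real.one_le_rpow hnR hγ.le
  have hy0 : 0 < y := by linarith
  have h1 : ((n : ℝ) + 1) ^ K ≤ 2 ^ K * (n : ℝ) ^ K := by
    rw [← Real.mul_rpow (by norm_num) hn0.le]
    exact Real.rpow_le_rpow (by linarith) (by linarith) hK
  have h2 : (n : ℝ) ^ K = y ^ (K / γ) := by
    rw [hy, ← Real.rpow_mul hn0.le, mul_div_cancel₀ _ hγ.ne']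
  have h3 : y ^ (K / γ) ≤ y ^ k := by
    rw [← Real.rpow_natCast]
    exact Real.rpow_le_rpow_of_exponent_le hy1 (Nat.le_ceil _)
  have h4 : y ^ k ≤ 2 ^ k * k.factorial * Real.exp (y / 2) := by
    have h := Real.pow_div_factorial_le_exp (y / 2) (by linarith) k
    have hk0 : (0 : ℝ) < k.factorial := by positivity
    rw [div_le_iff₀ hk0, div_pow, div_le_iff₀ (by positivity)] at h
    calc y ^ k ≤ Real.exp (y / 2) * k.factorial * 2 ^ k := h
      _ = _ := by ring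
  have h5 : (n : ℝ) ^ (γ / 2) = Real.sqrt y := by
    rw [Real.sqrt_eq_rpow, hy, ← Real.rpow_mul hn0.le]
    congr 1
    ring
  have h6 : Real.sqrt y ≤ (1 + y) / 2 := by
    have h := Real.sq_sqrt hy0.le
    nlinarith [sq_nonneg (Real.sqrt y - 1)]
  have h7 : Real.exp (-y) ≤ Real.exp (-(y / 2)) * (Real.exp (1 / 2) * Real.exp (-(n : ℝ) ^ (γ / 2))) := by
    rw [← Real.exp_add, ← Real.exp_add, Real.exp_le_exp, h5]
    linarith
  have e1 : 0 < Real.exp (-(n : ℝ) ^ (γ / 2)) := Real.exp_pos _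
  calc ((n : ℝ) + 1) ^ K * Real.exp (-y)
      ≤ (2 ^ K * (2 ^ k * k.factorial * Real.exp (y / 2))) *
        (Real.exp (-(y / 2)) * (Real.exp (1 / 2) * Real.exp (-(n : ℝ) ^ (γ / 2)))) := by
        refine mul_le_mul (h1.trans ?_) h7 (Real.exp_pos _).le (by positivity)
        rw [h2]
        exact mul_le_mul_of_nonneg_left (h3.trans h4) (by positivity)
    _ = 2 ^ K * (2 ^ k * k.factorial) * Real.exp (1 / 2) * Real.exp (-(n : ℝ) ^ (γ / 2)) *
        (Real.exp (y / 2) * Real.exp (-(y / 2))) := by ring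
    _ = _ := by
        rw [← Real.exp_add, add_neg_cancel, Real.exp_zero, mul_one]

/-- **rare sets of sub-words** -/
theorem rare_sub (μ C c δ : ℝ) (hc : 0 < c) (hδ : 0 < δ) : ∃ c' : ℝ, 0 < c' ∧
    ∀ f : ℕ → Fin 3 → ℂ, Alt f → Cnt f μ C → ∀ A : (m : ℕ) → Finset (Fin m → Fin 3),
      (∀ m : ℕ, 1 ≤ m → ((A m).card : ℝ) ≤ c⁻¹ * Real.exp (-(m : ℝ) ^ c) * ((SW f m).card : ℝ)) →
      ∀ n : ℕ, 1 ≤ n →
        (((SW f n).filter (fun s => ∃ i m : ℕ, ∃ h : i + m ≤ n, (n : ℝ) ^ δ ≤ m ∧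
          sub s i m h ∈ A m)).card : ℝ) ≤ c'⁻¹ * Real.exp (-(n : ℝ) ^ c') * ((SW f n).card : ℝ) := by
  by_cases hC : 1 ≤ C
  swap
  · exact ⟨1, one_pos, fun f _ h => absurd h.hC hC⟩
  obtain ⟨D, hD, hDb⟩ := pow_exp_le (3 * C + 2) (δ * c) (by linarith) (by positivity)
  set c' := min (δ * c / 2) (c⁻¹ * C ^ 3 * D)⁻¹ with hc'
  have hc'0 : 0 < c' := lt_min (by positivity) (by positivity)
  have hc'1 : c' ≤ δ * c / 2 := min_le_left _ _
  have hc'2 : c⁻¹ * C ^ 3 * D ≤ c'⁻¹ := by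
    rw [le_inv_comm₀ (by positivity) hc'0]
    exact min_le_right _ _
  refine ⟨c', hc'0, fun f hf hcnt A hA n hn => ?_⟩
  have hμ := hcnt.hμ
  have hnR : (1 : ℝ) ≤ n := by exact_mod_cast hn
  have hn0 : (0 : ℝ) < n := by linarith
  -- one pair
  set B : ℕ × ℕ → Finset (Fin n → Fin 3) := fun q => (SW f n).filter (fun s =>
    ∃ h : q.1 + q.2 ≤ n, (n : ℝ) ^ δ ≤ q.2 ∧ sub s q.1 q.2 h ∈ A q.2) with hB
  have h1 : (SW f n).filter (fun s => ∃ i m : ℕ, ∃ h : i + m ≤ n, (n : ℝ) ^ δ ≤ m ∧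
      sub s i m h ∈ A m) ⊆ (range (n + 1) ×ˢ range (n + 1)).biUnion B := by
    intro s hs
    rw [mem_filter] at hs
    obtain ⟨hs, i, m, h, h2, h3⟩ := hs
    rw [mem_biUnion]
    refine ⟨(i, m), ?_, ?_⟩
    · rw [mem_product, mem_range, mem_range]
      constructor <;> simp only <;> omega
    · rw [hB]
      simp only [mem_filter]
      exact ⟨hs, h, h2, h3⟩
  have h2 : ∀ q ∈ range (n + 1) ×ˢ range (n + 1), ((B q).card : ℝ) ≤
      c⁻¹ * C ^ 3 * (((n : ℝ) + 1) ^ (3 * C) * Real.exp (-(n : ℝ) ^ (δ * c))) *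
        ((SW f n).card : ℝ) := by
    rintro ⟨i, m⟩ _
    have hS : (0 : ℝ) ≤ ((SW f n).card : ℝ) := Nat.cast_nonneg _
    by_cases hq : i + m ≤ n ∧ (n : ℝ) ^ δ ≤ m
    swap
    · have : B (i, m) = ∅ := by
        rw [hB]
        simp only
        refine filter_false_of_mem fun s _ => ?_
        rintro ⟨h, h2, -⟩
        exact hq ⟨h, h2⟩
      rw [this, card_empty, Nat.cast_zero]
      positivity
    obtain ⟨h, hm⟩ := hq
    have hm1 : (1 : ℝ) ≤ m := (Real.one_le_rpow hnR hδ.le).trans hm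
    have hm1' : 1 ≤ m := by exact_mod_cast hm1
    have k1 := card_sub_le hf i m h (A m) (B (i, m)) (filter_subset _ _) (fun s hs => by
      rw [hB] at hs
      simp only [mem_filter] at hs
      obtain ⟨_, _, _, h3⟩ := hs
      exact h3)
    have k2 : ((B (i, m)).card : ℝ) ≤ ((SW f i).card : ℝ) * ((A m).card : ℝ) *
        ((SW f (n - (i + m))).card : ℝ) := by exact_mod_cast k1
    have k3 := hcnt.up i
    have k4 := hcnt.up m
    have k5 := hcnt.up (n - (i + m))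
    have k6 := hA m hm1'
    have big : ∀ j : ℕ, j ≤ n → C * ((j : ℝ) + 1) ^ C ≤ C * ((n : ℝ) + 1) ^ C := by
      intro j hj
      have : (j : ℝ) ≤ n := by exact_mod_cast hj
      exact mul_le_mul_of_nonneg_left
        (Real.rpow_le_rpow (by positivity) (by linarith) (by linarith)) (by linarith)
    have k7 : Real.exp (-(m : ℝ) ^ c) ≤ Real.exp (-(n : ℝ) ^ (δ * c)) := by
      rw [Real.exp_le_exp, neg_le_neg_iff, Real.rpow_mul hn0.le]
      exact Real.rpow_le_rpow (by positivity) hm hc.le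
    set Q := C * ((n : ℝ) + 1) ^ C with hQ
    have hQ0 : 0 ≤ Q := by positivity
    have k8 : ((SW f i).card : ℝ) ≤ Q * μ ^ i :=
      k3.trans (mul_le_mul_of_nonneg_right (big i (by omega)) (by positivity))
    have k9 : ((SW f m).card : ℝ) ≤ Q * μ ^ m :=
      k4.trans (mul_le_mul_of_nonneg_right (big m (by omega)) (by positivity))
    have k10 : ((SW f (n - (i + m))).card : ℝ) ≤ Q * μ ^ (n - (i + m)) :=
      k5.trans (mul_le_mul_of_nonneg_right (big _ (by omega)) (by positivity))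
    have k11 : ((A m).card : ℝ) ≤ c⁻¹ * Real.exp (-(n : ℝ) ^ (δ * c)) * (Q * μ ^ m) := by
      refine k6.trans (mul_le_mul ?_ k9 (Nat.cast_nonneg _) (by positivity))
      exact mul_le_mul_of_nonneg_left k7 (by positivity)
    have k12 : μ ^ i * μ ^ m * μ ^ (n - (i + m)) = μ ^ n := by
      rw [← pow_add, ← pow_add]
      congr 1
      omega
    have hQ3 : Q ^ 3 = C ^ 3 * ((n : ℝ) + 1) ^ (3 * C) := by
      rw [hQ, mul_pow, ← Real.rpow_natCast (((n : ℝ) + 1) ^ C) 3, ← Real.rpow_mul (by positivity)]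
      congr 2
      push_cast
      ring
    calc ((B (i, m)).card : ℝ) ≤ ((SW f i).card : ℝ) * ((A m).card : ℝ) *
          ((SW f (n - (i + m))).card : ℝ) := k2
      _ ≤ (Q * μ ^ i) * (c⁻¹ * Real.exp (-(n : ℝ) ^ (δ * c)) * (Q * μ ^ m)) *
          (Q * μ ^ (n - (i + m))) := by
          gcongr
      _ = c⁻¹ * Q ^ 3 * Real.exp (-(n : ℝ) ^ (δ * c)) * (μ ^ i * μ ^ m * μ ^ (n - (i + m))) := by
          ring
      _ = c⁻¹ * Q ^ 3 * Real.exp (-(n : ℝ) ^ (δ * c)) * μ ^ n := by rw [k12]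
      _ ≤ c⁻¹ * Q ^ 3 * Real.exp (-(n : ℝ) ^ (δ * c)) * ((SW f n).card : ℝ) :=
          mul_le_mul_of_nonneg_left (hcnt.lo n) (by positivity)
      _ = _ := by rw [hQ3]; ring
  have h3 : (((SW f n).filter (fun s => ∃ i m : ℕ, ∃ h : i + m ≤ n, (n : ℝ) ^ δ ≤ m ∧
      sub s i m h ∈ A m)).card : ℝ) ≤ ∑ q ∈ range (n + 1) ×ˢ range (n + 1), ((B q).card : ℝ) := by
    have := (card_le_card h1).trans card_biUnion_le
    exact_mod_cast this
  refine h3.trans ((sum_le_sum h2).trans ?_)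
  rw [sum_const, card_product, card_range, nsmul_eq_mul]
  have h4 := hDb n hn
  have hS : (0 : ℝ) ≤ ((SW f n).card : ℝ) := Nat.cast_nonneg _
  have h5 : Real.exp (-(n : ℝ) ^ (δ * c / 2)) ≤ Real.exp (-(n : ℝ) ^ c') := by
    rw [Real.exp_le_exp, neg_le_neg_iff]
    exact Real.rpow_le_rpow_of_exponent_le hnR hc'1
  have h6 : ((n : ℝ) + 1) ^ (3 * C + 2) = ((n : ℝ) + 1) * ((n : ℝ) + 1) * ((n : ℝ) + 1) ^ (3 * C) := by
    rw [Real.rpow_add (by positivity), Real.rpow_two]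
    ring
  rw [h6] at h4
  calc (((n + 1) * (n + 1) : ℕ) : ℝ) * (c⁻¹ * C ^ 3 * (((n : ℝ) + 1) ^ (3 * C) *
        Real.exp (-(n : ℝ) ^ (δ * c))) * ((SW f n).card : ℝ))
      = c⁻¹ * C ^ 3 * (((n : ℝ) + 1) * ((n : ℝ) + 1) * ((n : ℝ) + 1) ^ (3 * C) *
        Real.exp (-(n : ℝ) ^ (δ * c))) * ((SW f n).card : ℝ) := by
        push_cast
        ring
    _ ≤ c⁻¹ * C ^ 3 * (D * Real.exp (-(n : ℝ) ^ (δ * c / 2))) * ((SW f n).card : ℝ) := by
        gcongr
    _ ≤ c⁻¹ * C ^ 3 * (D * Real.exp (-(n : ℝ) ^ c')) * ((SW f n).card : ℝ) := by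
        gcongr
    _ = (c⁻¹ * C ^ 3 * D) * Real.exp (-(n : ℝ) ^ c') * ((SW f n).card : ℝ) := by ring
    _ ≤ _ := by
        gcongr

end MS
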