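import Pool.Agent.MS.Fin

/-!
# The sizes of the walk: radius of gyration and monomer-endpoint distance
-/

set_option autoImplicit false
open scoped Classical

noncomputable section

namespace MS

open Finset

/-- squared radius of gyration -/
def Rg (f : ℕ → Fin 3 → ℂ) {n : ℕ} (s : Fin n → Fin 3) : ℝ :=
  (∑ i ∈ range (n + 1), ∑ j ∈ range (n + 1), ‖pw f s i - pw f s j‖ ^ 2) / (2 * ((n : ℝ) + 1) ^ 2)

/-- squared monomer-endpoint distance -/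
def Rm (f : ℕ → Fin 3 → ℂ) {n : ℕ} (s : Fin n → Fin 3) : ℝ :=
  (∑ i ∈ range (n + 1), (‖pw f s i‖ ^ 2 + ‖pw f s i - pw f s n‖ ^ 2)) / (2 * ((n : ℝ) + 1))

/-- square of the maximal displacement -/
def Mx (f : ℕ → Fin 3 → ℂ) {n : ℕ} (s : Fin n → Fin 3) : ℝ :=
  univ.sup' univ_nonempty (fun j : Fin (n + 1) => ‖pw f s (j : ℕ)‖ ^ 2)

section

variable (f : ℕ → Fin 3 → ℂ) {n : ℕ} (s : Fin n → Fin 3)

theorem le_Mx (j : ℕ) (hj : j ≤ n) : ‖pw f s j‖ ^ 2 ≤ Mx f s :=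
  le_sup' (fun j : Fin (n + 1) => ‖pw f s (j : ℕ)‖ ^ 2) (mem_univ (⟨j, by omega⟩ : Fin (n + 1)))

theorem Mx_nonneg : 0 ≤ Mx f s := (sq_nonneg _).trans (le_Mx f s 0 (by omega))

theorem diff_le_Mx (i j : ℕ) (hi : i ≤ n) (hj : j ≤ n) :
    ‖pw f s i - pw f s j‖ ^ 2 ≤ 4 * Mx f s := by
  have h1 := le_Mx f s i hi
  have h2 := le_Mx f s j hj
  have h3 := norm_sub_le (pw f s i) (pw f s j)
  have h4 : ‖pw f s i - pw f s j‖ ^ 2 ≤ (‖pw f s i‖ + ‖pw f s j‖) ^ 2 :=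
    pow_le_pow_left₀ (norm_nonneg _) h3 2
  nlinarith [sq_nonneg (‖pw f s i‖ - ‖pw f s j‖)]

theorem Rg_nonneg : 0 ≤ Rg f s := by
  unfold Rg
  positivity

theorem Rm_nonneg : 0 ≤ Rm f s := by
  unfold Rm
  positivity

theorem Rg_le : Rg f s ≤ 2 * Mx f s := by
  unfold Rg
  rw [div_le_iff₀ (by positivity)]
  have h : ∑ i ∈ range (n + 1), ∑ j ∈ range (n + 1), ‖pw f s i - pw f s j‖ ^ 2 ≤
      ∑ _i ∈ range (n + 1), ∑ _j ∈ range (n + 1), 4 * Mx f s := by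
    refine sum_le_sum fun i hi => sum_le_sum fun j hj => ?_
    rw [mem_range] at hi hj
    exact diff_le_Mx f s i j (by omega) (by omega)
  rw [sum_const, sum_const, card_range, nsmul_eq_mul, nsmul_eq_mul] at h
  push_cast at h
  calc _ ≤ _ := h
    _ = _ := by ring

theorem Rm_le : Rm f s ≤ 5 / 2 * Mx f s := by
  unfold Rm
  rw [div_le_iff₀ (by positivity)]
  have h : ∑ i ∈ range (n + 1), (‖pw f s i‖ ^ 2 + ‖pw f s i - pw f s n‖ ^ 2) ≤
      ∑ _i ∈ range (n + 1), 5 * Mx f s := by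
    refine sum_le_sum fun i hi => ?_
    rw [mem_range] at hi
    have h1 := le_Mx f s i (by omega)
    have h2 := diff_le_Mx f s i n (by omega) le_rfl
    linarith
  rw [sum_const, card_range, nsmul_eq_mul] at h
  push_cast at h
  calc _ ≤ _ := h
    _ = _ := by ring

end

/-- bounds from below that hold always -/
theorem Rg_ge_small {f : ℕ → Fin 3 → ℂ} (hf : Hex f) {n : ℕ} (hn : 1 ≤ n) (s : Fin n → Fin 3) :
    1 / (2 * ((n : ℝ) + 1) ^ 2) ≤ Rg f s := by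
  unfold Rg
  have h1 : ‖pw f s 1 - pw f s 0‖ = 1 := by
    rw [pw_succ f s 0 (by omega), add_sub_cancel_left]
    exact hf.norm_step _ _
  have h2 : (1 : ℝ) ≤ ∑ i ∈ range (n + 1), ∑ j ∈ range (n + 1), ‖pw f s i - pw f s j‖ ^ 2 := by
    calc (1 : ℝ) = ‖pw f s 1 - pw f s 0‖ ^ 2 := by rw [h1]; norm_num
      _ ≤ ∑ j ∈ range (n + 1), ‖pw f s 1 - pw f s j‖ ^ 2 :=
        single_le_sum (f := fun j => ‖pw f s 1 - pw f s j‖ ^ 2) (fun _ _ => by positivity)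
          (mem_range.2 (by omega))
      _ ≤ _ := single_le_sum (f := fun i => ∑ j ∈ range (n + 1), ‖pw f s i - pw f s j‖ ^ 2)
          (fun _ _ => by positivity) (mem_range.2 (by omega))
  gcongr

theorem Rm_ge_small {f : ℕ → Fin 3 → ℂ} (hf : Hex f) {n : ℕ} (hn : 1 ≤ n) (s : Fin n → Fin 3) :
    1 / (2 * ((n : ℝ) + 1) ^ 2) ≤ Rm f s := by
  unfold Rm
  have h1 : ‖pw f s 1‖ = 1 := by
    rw [pw_succ f s 0 (by omega), pw_zero, zero_add]
    exact hf.norm_step _ _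
  have h2 : (1 : ℝ) ≤ ∑ i ∈ range (n + 1), (‖pw f s i‖ ^ 2 + ‖pw f s i - pw f s n‖ ^ 2) := by
    calc (1 : ℝ) ≤ ‖pw f s 1‖ ^ 2 + ‖pw f s 1 - pw f s n‖ ^ 2 := by
          rw [h1]
          have := sq_nonneg ‖pw f s 1 - pw f s n‖
          linarith
      _ ≤ _ := single_le_sum (f := fun i => ‖pw f s i‖ ^ 2 + ‖pw f s i - pw f s n‖ ^ 2)
          (fun _ _ => by positivity) (mem_range.2 (by omega))
  have hn0 : (0 : ℝ) ≤ n := Nat.cast_nonneg _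
  rw [div_le_div_iff₀ (by positivity) (by positivity)]
  have h3 : 2 * ((n : ℝ) + 1) ≤ 2 * ((n : ℝ) + 1) ^ 2 := by nlinarith
  nlinarith

/-- **radius of gyration of a regular walk** -/
theorem Rg_ge_good {f : ℕ → Fin 3 → ℂ} {a b c δ : ℝ} (hc : 0 < c) {n : ℕ}
    {s : Fin n → Fin 3} (h : Good f a b c δ s) (hn : 1 ≤ n) (hδ : (n : ℝ) ^ δ ≤ n) {L : ℕ}
    (hL1 : 1 ≤ L) (hL2 : 2 * L ≤ n) (hL3 : (n : ℝ) ^ δ ≤ L)
    (hL4 : (L : ℝ) ^ b ≤ c ^ 2 * (n : ℝ) ^ a / 8) {κ : ℝ} (hκ : 0 < κ)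
    (hL5 : κ * (n : ℝ) ^ (a / b) ≤ L) :
    κ * c ^ 2 / 64 * (n : ℝ) ^ (2 * a + a / b - 1) ≤ Rg f s ∧
    κ * c ^ 2 / 64 * (n : ℝ) ^ (2 * a + a / b - 1) ≤ Rm f s := by
  have hnR : (1 : ℝ) ≤ n := by exact_mod_cast hn
  have hn0 : (0 : ℝ) < n := by linarith
  have key : ∀ x : ℂ, (L : ℝ) * (c * (n : ℝ) ^ a / 4) ^ 2 ≤
      ∑ k ∈ range (n + 1), ‖pw f s k - x‖ ^ 2 := sum_sq_far hc h hn hδ hL1 hL2 hL3 hL4
  have e1 : (n : ℝ) ^ (2 * a + a / b - 1) = (n : ℝ) ^ a * (n : ℝ) ^ a * (n : ℝ) ^ (a / b) / n := by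
    rw [Real.rpow_sub_one hn0.ne', Real.rpow_add hn0, two_mul, Real.rpow_add hn0]
  have h1 : κ * c ^ 2 / 16 * (n : ℝ) ^ (2 * a + a / b - 1) * n ≤
      (L : ℝ) * (c * (n : ℝ) ^ a / 4) ^ 2 := by
    rw [e1]
    calc κ * c ^ 2 / 16 * ((n : ℝ) ^ a * (n : ℝ) ^ a * (n : ℝ) ^ (a / b) / n) * n
        = (κ * (n : ℝ) ^ (a / b)) * (c * (n : ℝ) ^ a / 4) ^ 2 := by
          field_simp
          ring
      _ ≤ _ := mul_le_mul_of_nonneg_right hL5 (by positivity)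
  have hE : 0 < (n : ℝ) ^ (2 * a + a / b - 1) := by positivity
  constructor
  · unfold Rg
    rw [le_div_iff₀ (by positivity)]
    have h2 : ∑ _i ∈ range (n + 1), (κ * c ^ 2 / 16 * (n : ℝ) ^ (2 * a + a / b - 1) * n) ≤
        ∑ i ∈ range (n + 1), ∑ j ∈ range (n + 1), ‖pw f s i - pw f s j‖ ^ 2 := by
      refine sum_le_sum fun i _ => h1.trans ((key (pw f s i)).trans (le_of_eq ?_))
      exact sum_congr rfl fun j _ => by rw [norm_sub_rev]
    rw [sum_const, card_range, nsmul_eq_mul] at h2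
    push_cast at h2
    refine le_trans ?_ h2
    have h3 : ((n : ℝ) + 1) ^ 2 ≤ ((n : ℝ) + 1) * (2 * n) := by nlinarith
    calc κ * c ^ 2 / 64 * (n : ℝ) ^ (2 * a + a / b - 1) * (2 * ((n : ℝ) + 1) ^ 2)
        = κ * c ^ 2 / 32 * (n : ℝ) ^ (2 * a + a / b - 1) * ((n : ℝ) + 1) ^ 2 := by ring
      _ ≤ κ * c ^ 2 / 32 * (n : ℝ) ^ (2 * a + a / b - 1) * (((n : ℝ) + 1) * (2 * n)) := by gcongr
      _ = _ := by ring
  · unfold Rm
    rw [le_div_iff₀ (by positivity)]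
    have h2 : κ * c ^ 2 / 16 * (n : ℝ) ^ (2 * a + a / b - 1) * n ≤
        ∑ i ∈ range (n + 1), (‖pw f s i‖ ^ 2 + ‖pw f s i - pw f s n‖ ^ 2) := by
      refine h1.trans ((key 0).trans (sum_le_sum fun i _ => ?_))
      rw [sub_zero]
      have := sq_nonneg ‖pw f s i - pw f s n‖
      linarith
    refine le_trans ?_ h2
    have h3 : 2 * ((n : ℝ) + 1) ≤ 4 * n := by linarith
    calc κ * c ^ 2 / 64 * (n : ℝ) ^ (2 * a + a / b - 1) * (2 * ((n : ℝ) + 1))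
        ≤ κ * c ^ 2 / 64 * (n : ℝ) ^ (2 * a + a / b - 1) * (4 * n) := by gcongr
      _ = _ := by ring

/-- **tail and mean from below** -/
theorem size_lower {p q : ℝ} (hp : 0 < p) (hpq : p ≤ q) (hq : q ≤ 2) (hL : LowT p)
    (hU : UpT q) : ∃ c : ℝ, 0 < c ∧ ∀ f : ℕ → Fin 3 → ℂ, Hex f → ∀ n : ℕ, 1 ≤ n →
      (((SW f n).filter (fun s => ¬ (c * (n : ℝ) ^ (p + p / q - 1) ≤ Rg f s ∧
        c * (n : ℝ) ^ (p + p / q - 1) ≤ Rm f s))).card : ℝ) ≤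
          c⁻¹ * Real.exp (-(n : ℝ) ^ c) * ((SW f n).card : ℝ) ∧
      c * (n : ℝ) ^ (p + p / q - 1) ≤ (∑ s ∈ SW f n, Rg f s) / ((SW f n).card : ℝ) ∧
      c * (n : ℝ) ^ (p + p / q - 1) ≤ (∑ s ∈ SW f n, Rm f s) / ((SW f n).card : ℝ) := by
  have hq0 : 0 < q := by linarith
  set δ : ℝ := p / q / 2 with hδ
  have hδ0 : 0 < δ := by positivity
  obtain ⟨c₀, hc₀, hc₀1, hgood⟩ := all_scales (p := p) (q := q) hδ0 hL hU
  have hab : p / 2 / (q / 2) = p / q := by field_simp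
  obtain ⟨κ, hκ, n₀, hn₀, hLs⟩ := exists_L (a := p / 2) (b := q / 2) (c := c₀) (δ := δ)
    (by positivity) (by linarith) (by linarith) hc₀ hc₀1 (by
      rw [hab, hδ]
      exact div_lt_self (by positivity) (by norm_num))
  set e := p + p / q - 1 with he
  have he2 : 2 * (p / 2) + p / 2 / (q / 2) - 1 = e := by rw [hab, he]; ring
  have he1 : e ≤ 2 := by
    have : p / q ≤ 1 := by rw [div_le_one hq0]; exact hpq
    rw [he]
    linarith
  -- for `n` large the probability of the regular walks is at least one half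
  have ht : Filter.Tendsto (fun n : ℕ => c₀⁻¹ * Real.exp (-(n : ℝ) ^ c₀)) Filter.atTop
      (nhds (c₀⁻¹ * 0)) := by
    refine Filter.Tendsto.const_mul _ ?_
    refine Real.tendsto_exp_atBot.comp ?_
    refine Filter.tendsto_neg_atTop_atBot.comp ?_
    exact (tendsto_rpow_atTop hc₀).comp tendsto_natCast_atTop_atTop
  rw [mul_zero] at ht
  obtain ⟨n₁, hn₁⟩ := (ht.eventually (gt_mem_nhds (by norm_num : (0 : ℝ) < 1 / 2))).exists_forall_of_atTop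
  set N := max n₀ n₁ with hN
  have hN0 : (0 : ℝ) < N := by
    have : 1 ≤ N := hn₀.trans (le_max_left _ _)
    exact_mod_cast this
  set c := min c₀ (min (κ * c₀ ^ 2 / 128) (1 / (2 * ((N : ℝ) + 1) ^ 4))) with hc
  have hc0 : 0 < c := lt_min hc₀ (lt_min (by positivity) (by positivity))
  have hcc : c ≤ c₀ := min_le_left _ _
  have hck : c ≤ κ * c₀ ^ 2 / 128 := (min_le_right _ _).trans (min_le_left _ _)
  have hcN : c ≤ 1 / (2 * ((N : ℝ) + 1) ^ 4) := (min_le_right _ _).trans (min_le_right _ _)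
  refine ⟨c, hc0, fun f hf n hn => ?_⟩
  have hnR : (1 : ℝ) ≤ n := by exact_mod_cast hn
  have hn0 : (0 : ℝ) < n := by linarith
  have hE : 0 < (n : ℝ) ^ e := by positivity
  have hSpos : (0 : ℝ) < ((SW f n).card : ℝ) := by
    obtain ⟨C, hC⟩ := exists_Cnt
    have h1 := (hC f hf).lo n
    exact lt_of_lt_of_le (pow_pos (hC f hf).hμ n) h1
  -- small `n`
  have small : n < N → ∀ s : Fin n → Fin 3, c * (n : ℝ) ^ e ≤ Rg f s ∧ c * (n : ℝ) ^ e ≤ Rm f s := by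
    intro hnN s
    have hnN' : (n : ℝ) ≤ N := by exact_mod_cast hnN.le
    have h1 : c * (n : ℝ) ^ e ≤ 1 / (2 * ((n : ℝ) + 1) ^ 2) := by
      have h2 : (n : ℝ) ^ e ≤ ((N : ℝ) + 1) ^ 2 := by
        calc (n : ℝ) ^ e ≤ (n : ℝ) ^ (2 : ℝ) := Real.rpow_le_rpow_of_exponent_le hnR he1
          _ = (n : ℝ) ^ 2 := Real.rpow_two _
          _ ≤ _ := by gcongr; linarith
      calc c * (n : ℝ) ^ e ≤ 1 / (2 * ((N : ℝ) + 1) ^ 4) * ((N : ℝ) + 1) ^ 2 := by gcongr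
        _ = 1 / (2 * ((N : ℝ) + 1) ^ 2) := by field_simp
        _ ≤ _ := by gcongr
    exact ⟨h1.trans (Rg_ge_small hf hn s), h1.trans (Rm_ge_small hf hn s)⟩
  -- large `n`
  have large : N ≤ n → ∀ s : Fin n → Fin 3, Good f (p / 2) (q / 2) c₀ δ s →
      2 * c * (n : ℝ) ^ e ≤ Rg f s ∧ 2 * c * (n : ℝ) ^ e ≤ Rm f s := by
    intro hnN s hs
    obtain ⟨h1, L, hL1, hL2, hL3, hL4, hL5⟩ := hLs n ((le_max_left _ _).trans hnN)
    have h2 := Rg_ge_good hc₀ hs hn h1 hL1 hL2 hL3 hL4 hκ hL5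
    rw [he2] at h2
    have h3 : 2 * c * (n : ℝ) ^ e ≤ κ * c₀ ^ 2 / 64 * (n : ℝ) ^ e := by
      have : 2 * c ≤ κ * c₀ ^ 2 / 64 := by linarith
      exact mul_le_mul_of_nonneg_right this hE.le
    exact ⟨h3.trans h2.1, h3.trans h2.2⟩
  have hbad := hgood f hf n hn
  -- the mean
  have mean : ∀ R : (Fin n → Fin 3) → ℝ, (∀ s, 0 ≤ R s) →
      (n < N → ∀ s, c * (n : ℝ) ^ e ≤ R s) →
      (N ≤ n → ∀ s, Good f (p / 2) (q / 2) c₀ δ s → 2 * c * (n : ℝ) ^ e ≤ R s) →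
      c * (n : ℝ) ^ e ≤ (∑ s ∈ SW f n, R s) / ((SW f n).card : ℝ) := by
    intro R hR h1 h2
    rw [le_div_iff₀ hSpos]
    rcases lt_or_ge n N with h | h
    · have h3 : ∑ _s ∈ SW f n, c * (n : ℝ) ^ e ≤ ∑ s ∈ SW f n, R s := sum_le_sum fun s _ => h1 h s
      rw [sum_const, nsmul_eq_mul, mul_comm] at h3
      exact h3
    · have h3 : ∑ _s ∈ (SW f n).filter (fun s => Good f (p / 2) (q / 2) c₀ δ s),
          2 * c * (n : ℝ) ^ e ≤ ∑ s ∈ SW f n, R s := by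
        refine (sum_le_sum fun s hs => h2 h s (mem_filter.1 hs).2).trans ?_
        exact sum_le_sum_of_subset_of_nonneg (filter_subset _ _) fun s _ _ => hR s
      rw [sum_const, nsmul_eq_mul] at h3
      have h4 : (((SW f n).filter (fun s => Good f (p / 2) (q / 2) c₀ δ s)).card : ℝ) +
          (((SW f n).filter (fun s => ¬ Good f (p / 2) (q / 2) c₀ δ s)).card : ℝ) =
          ((SW f n).card : ℝ) := by
        exact_mod_cast card_filter_add_card_filter_not _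
      have h5 : c₀⁻¹ * Real.exp (-(n : ℝ) ^ c₀) ≤ 1 / 2 :=
        (hn₁ n ((le_max_right _ _).trans h)).le
      have h6 : (((SW f n).filter (fun s => ¬ Good f (p / 2) (q / 2) c₀ δ s)).card : ℝ) ≤
          1 / 2 * ((SW f n).card : ℝ) :=
        hbad.trans (mul_le_mul_of_nonneg_right h5 hSpos.le)
      have h7 : 1 / 2 * ((SW f n).card : ℝ) ≤
          (((SW f n).filter (fun s => Good f (p / 2) (q / 2) c₀ δ s)).card : ℝ) := by linarith
      have h8 : 0 ≤ 2 * c * (n : ℝ) ^ e := by positivity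
      have h9 := mul_le_mul_of_nonneg_right h7 h8
      linarith
  refine ⟨?_, mean (Rg f) (Rg_nonneg f) (fun h s => (small h s).1) (fun h s hs => (large h s hs).1),
    mean (Rm f) (Rm_nonneg f) (fun h s => (small h s).2) (fun h s hs => (large h s hs).2)⟩
  have h1 : (SW f n).filter (fun s => ¬ (c * (n : ℝ) ^ e ≤ Rg f s ∧ c * (n : ℝ) ^ e ≤ Rm f s)) ⊆
      (SW f n).filter (fun s => ¬ Good f (p / 2) (q / 2) c₀ δ s) := by
    intro s hs
    rw [mem_filter] at hs ⊢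
    refine ⟨hs.1, fun hg => hs.2 ?_⟩
    rcases lt_or_ge n N with h | h
    · exact small h s
    · have h2 := large h s hg
      have h3 : 0 ≤ c * (n : ℝ) ^ e := by positivity
      constructor <;> linarith [h2.1, h2.2]
  have h2 : (((SW f n).filter (fun s => ¬ (c * (n : ℝ) ^ e ≤ Rg f s ∧
      c * (n : ℝ) ^ e ≤ Rm f s))).card : ℝ) ≤
      (((SW f n).filter (fun s => ¬ Good f (p / 2) (q / 2) c₀ δ s)).card : ℝ) := by
    exact_mod_cast card_le_card h1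
  refine h2.trans (hbad.trans ?_)
  have e1 : Real.exp (-(n : ℝ) ^ c₀) ≤ Real.exp (-(n : ℝ) ^ c) := by
    rw [Real.exp_le_exp, neg_le_neg_iff]
    exact Real.rpow_le_rpow_of_exponent_le hnR hcc
  have i1 : c₀⁻¹ ≤ c⁻¹ := inv_anti₀ hc0 hcc
  gcongr

end MS
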