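import Mathlib

/-!
# Words, positions, sub-words (self-avoiding walks on the hexagonal lattice)

`pw f s j`: position after `j` steps of the word `s`; `SW f n`: words of length `n` of the
self-avoiding walks; `sub s i m h`: the sub-word of length `m` starting at time `i`.
`card_sub_le`: the number of walks whose sub-word lies in a set `A` is at most the product of the
numbers of the three pieces.
-/

set_option autoImplicit false
open scoped Classical

noncomputable section

namespace MS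

open Finset

/-- the steps alternate: `f i a = (-1)^i e a` -/
def Alt (f : ℕ → Fin 3 → ℂ) : Prop := ∀ i a, f i a = (-1 : ℂ) ^ i * f 0 a

/-- position after `j` steps -/
def pw (f : ℕ → Fin 3 → ℂ) {n : ℕ} (s : Fin n → Fin 3) (j : ℕ) : ℂ :=
  ∑ i ∈ univ.filter (fun i : Fin n => (i : ℕ) < j), f (i : ℕ) (s i)

/-- self-avoiding words of length `n` -/
def SW (f : ℕ → Fin 3 → ℂ) (n : ℕ) : Finset (Fin n → Fin 3) :=
  univ.filter (fun s => ∀ j₁ j₂ : Fin (n + 1), pw f s j₁ = pw f s j₂ → j₁ = j₂)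

/-- sub-word of length `m` starting at time `i` -/
def sub {n : ℕ} (s : Fin n → Fin 3) (i m : ℕ) (h : i + m ≤ n) : Fin m → Fin 3 :=
  fun k => s ⟨i + k, by have := k.2; omega⟩

theorem mem_SW {f : ℕ → Fin 3 → ℂ} {n : ℕ} {s : Fin n → Fin 3} :
    s ∈ SW f n ↔ ∀ j₁ j₂ : ℕ, j₁ ≤ n → j₂ ≤ n → pw f s j₁ = pw f s j₂ → j₁ = j₂ := by
  unfold SW
  rw [mem_filter]
  constructor
  · rintro ⟨_, h⟩ j₁ j₂ h1 h2 h3
    have := h ⟨j₁, by omega⟩ ⟨j₂, by omega⟩ h3
    exact congrArg Fin.val this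
  · intro h
    exact ⟨mem_univ _, fun j₁ j₂ h3 => Fin.ext (h _ _ (by omega) (by omega) h3)⟩

theorem pw_zero (f : ℕ → Fin 3 → ℂ) {n : ℕ} (s : Fin n → Fin 3) : pw f s 0 = 0 := by
  unfold pw
  rw [filter_false_of_mem (by simp), sum_empty]

theorem pw_succ (f : ℕ → Fin 3 → ℂ) {n : ℕ} (s : Fin n → Fin 3) (j : ℕ) (hj : j < n) :
    pw f s (j + 1) = pw f s j + f j (s ⟨j, hj⟩) := by
  unfold pw
  have h : univ.filter (fun i : Fin n => (i : ℕ) < j + 1) =
      insert (⟨j, hj⟩ : Fin n) (univ.filter (fun i : Fin n => (i : ℕ) < j)) := by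
    ext i
    simp only [mem_filter, mem_univ, true_and, mem_insert, Fin.ext_iff]
    omega
  rw [h, sum_insert (by simp), add_comm]

theorem Alt.add {f : ℕ → Fin 3 → ℂ} (hf : Alt f) (i k : ℕ) (a : Fin 3) :
    f (i + k) a = (-1 : ℂ) ^ i * f k a := by
  rw [hf (i + k), hf k, pow_add, mul_assoc]

/-- positions of the sub-word -/
theorem pw_sub {f : ℕ → Fin 3 → ℂ} (hf : Alt f) {n : ℕ} (s : Fin n → Fin 3) (i m : ℕ)
    (h : i + m ≤ n) (j : ℕ) (hj : j ≤ m) :
    pw f s (i + j) = pw f s i + (-1 : ℂ) ^ i * pw f (sub s i m h) j := by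
  induction j with
  | zero => rw [pw_zero, mul_zero, add_zero, add_zero]
  | succ j ih =>
    have h1 := ih (by omega)
    rw [← add_assoc, pw_succ f s (i + j) (by omega), h1,
      pw_succ f (sub s i m h) j (by omega), mul_add, hf.add, add_assoc]
    rfl

theorem norm_pw_sub {f : ℕ → Fin 3 → ℂ} (hf : Alt f) {n : ℕ} (s : Fin n → Fin 3) (i m : ℕ)
    (h : i + m ≤ n) (j : ℕ) (hj : j ≤ m) :
    ‖pw f s (i + j) - pw f s i‖ = ‖pw f (sub s i m h) j‖ := by
  rw [pw_sub hf s i m h j hj, add_sub_cancel_left, norm_mul, norm_pow, norm_neg, norm_one,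
    one_pow, one_mul]

/-- sub-words of self-avoiding words are self-avoiding -/
theorem sub_mem {f : ℕ → Fin 3 → ℂ} (hf : Alt f) {n : ℕ} {s : Fin n → Fin 3} (hs : s ∈ SW f n)
    (i m : ℕ) (h : i + m ≤ n) : sub s i m h ∈ SW f m := by
  rw [mem_SW] at hs ⊢
  intro j₁ j₂ h1 h2 h3
  have h4 : pw f s (i + j₁) = pw f s (i + j₂) := by
    rw [pw_sub hf s i m h j₁ h1, pw_sub hf s i m h j₂ h2, h3]
  have := hs _ _ (by omega) (by omega) h4
  omega

/-- **decomposition of a walk in three pieces** -/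
theorem card_sub_le {f : ℕ → Fin 3 → ℂ} (hf : Alt f) {n : ℕ} (i m : ℕ) (h : i + m ≤ n)
    (A : Finset (Fin m → Fin 3)) (B : Finset (Fin n → Fin 3)) (hB : B ⊆ SW f n)
    (hA : ∀ s ∈ B, sub s i m h ∈ A) :
    B.card ≤ (SW f i).card * A.card * (SW f (n - (i + m))).card := by
  have e1 : 0 + i ≤ n := by omega
  have e2 : i + m + (n - (i + m)) ≤ n := by omega
  rw [← card_product, ← card_product]
  refine card_le_card_of_injOn
    (fun s => ((sub s 0 i e1, sub s i m h), sub s (i + m) (n - (i + m)) e2)) ?_ ?_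
  · intro s hs
    have hs' : s ∈ SW f n := hB hs
    rw [mem_coe, mem_product, mem_product]
    exact ⟨⟨sub_mem hf hs' 0 i e1, hA s hs⟩, sub_mem hf hs' (i + m) (n - (i + m)) e2⟩
  · intro s _ s' _ hss
    simp only [Prod.mk.injEq] at hss
    obtain ⟨⟨h1, h2⟩, h3⟩ := hss
    funext k
    rcases lt_or_ge (k : ℕ) i with hk | hk
    · have := congrFun h1 ⟨k, hk⟩
      unfold sub at this
      simpa using this
    · rcases lt_or_ge (k : ℕ) (i + m) with hk2 | hk2
      · have := congrFun h2 ⟨(k : ℕ) - i, by omega⟩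
        unfold sub at this
        have e : (⟨i + ((k : ℕ) - i), by have := k.2; omega⟩ : Fin n) = k := Fin.ext (by simp; omega)
        simpa [e] using this
      · have hkn := k.2
        have := congrFun h3 ⟨(k : ℕ) - (i + m), by omega⟩
        unfold sub at this
        have e : (⟨i + m + ((k : ℕ) - (i + m)), by omega⟩ : Fin n) = k :=
          Fin.ext (by simp; omega)
        simpa [e] using this

end MS
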